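import Mathlib

/-!
# The braid group on three strands and its image in `SL₂(ℤ)`
-/

set_option autoImplicit false

namespace Pool.Agent.KS6_91.TB


/-- the relation of the braid group on three strands, `σ₁ σ₂ σ₁ = σ₂ σ₁ σ₂` -/
def rel : Set (FreeGroup (Fin 2)) :=
  {FreeGroup.of 0 * FreeGroup.of 1 * FreeGroup.of 0 *
    (FreeGroup.of 1 * FreeGroup.of 0 * FreeGroup.of 1)⁻¹}

/-- the braid group on three strands: generators `σ₁` (number `0`), `σ₂` (number `1`), relation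
`σ₁ σ₂ σ₁ = σ₂ σ₁ σ₂` -/
abbrev B3 : Type := PresentedGroup rel

/-- the generators `σ₁ = σ 0`, `σ₂ = σ 1` -/
def σ (i : Fin 2) : B3 := PresentedGroup.of i

theorem braid_rel : σ 0 * σ 1 * σ 0 = σ 1 * σ 0 * σ 1 := by
  have h : (PresentedGroup.mk rel) (FreeGroup.of 0 * FreeGroup.of 1 * FreeGroup.of 0 *
    (FreeGroup.of 1 * FreeGroup.of 0 * FreeGroup.of 1)⁻¹) = 1 :=
    PresentedGroup.one_of_mem (Set.mem_singleton _)
  rw [map_mul, map_inv, mul_inv_eq_one, map_mul, map_mul, map_mul, map_mul] at h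
  exact h

/-- a homomorphism from the braid group -/
def lift {G : Type*} [Group G] (f : Fin 2 → G) (h : f 0 * f 1 * f 0 = f 1 * f 0 * f 1) : B3 →* G :=
  PresentedGroup.toGroup (f := f) (by
    intro r hr
    rw [rel, Set.mem_singleton_iff] at hr
    subst hr
    simp only [map_mul, map_inv, FreeGroup.lift_apply_of]
    rw [h, mul_inv_cancel])

theorem lift_σ {G : Type*} [Group G] (f : Fin 2 → G) (h : f 0 * f 1 * f 0 = f 1 * f 0 * f 1) (i : Fin 2) :
    lift f h (σ i) = f i := PresentedGroup.toGroup.of _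

/-- the half twist `Δ = σ₁ σ₂ σ₁` -/
def Δ : B3 := σ 0 * σ 1 * σ 0

/-- the full twist `Δ²` -/
def c : B3 := Δ * Δ

theorem Δ_a : Δ * σ 0 = σ 1 * Δ := by
  unfold Δ
  conv_lhs => rw [braid_rel]
  simp only [mul_assoc]

theorem Δ_b : Δ * σ 1 = σ 0 * Δ := by
  unfold Δ
  conv_rhs => rw [braid_rel]
  simp only [mul_assoc]

theorem c_a : Commute c (σ 0) := by
  show c * σ 0 = σ 0 * c
  unfold c; rw [mul_assoc, Δ_a, ← mul_assoc, Δ_b, mul_assoc]

theorem c_b : Commute c (σ 1) := by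
  show c * σ 1 = σ 1 * c
  unfold c; rw [mul_assoc, Δ_b, ← mul_assoc, Δ_a, mul_assoc]

theorem closure_σ : Subgroup.closure (Set.range σ) = ⊤ := PresentedGroup.closure_range_of rel

theorem c_comm (g : B3) : Commute c g := by
  have h : g ∈ Subgroup.closure (Set.range σ) := closure_σ ▸ Subgroup.mem_top g
  induction h using Subgroup.closure_induction with
  | mem x hx =>
    obtain ⟨i, rfl⟩ := hx
    fin_cases i
    · exact c_a
    · exact c_b
  | one => exact Commute.one_right _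
  | mul x y _ _ hx hy => exact hx.mul_right hy
  | inv x _ hx => exact hx.inv_right

/-! ### a normal form -/

/-- the letters `p = σ₁` (`true`) and `q = σ₂⁻¹` (`false`) -/
def pq (b : Bool) : B3 := if b then σ 0 else (σ 1)⁻¹

/-- a product of letters -/
def evL (h : List Bool) : B3 := (h.map pq).prod

/-- `Δ` or `1` -/
def dd (b : Bool) : B3 := if b then Δ else 1

theorem a_inv : (σ 0)⁻¹ = c⁻¹ * (Δ * (pq false * Δ)) := by
  have h : Δ * (σ 1)⁻¹ = (σ 0)⁻¹ * Δ := by
    rw [eq_inv_mul_iff_mul_eq, ← mul_assoc, ← Δ_b, mul_inv_cancel_right]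
  rw [eq_inv_mul_iff_mul_eq]
  show c * (σ 0)⁻¹ = Δ * ((if false then σ 0 else (σ 1)⁻¹) * Δ)
  rw [if_neg (by decide), ← mul_assoc, h, mul_assoc]
  exact (c_comm _)

theorem b_eq : σ 1 = c⁻¹ * (Δ * (pq true * Δ)) := by
  rw [eq_inv_mul_iff_mul_eq]
  show c * σ 1 = Δ * ((if true then σ 0 else (σ 1)⁻¹) * Δ)
  rw [if_pos rfl, ← mul_assoc, Δ_a, mul_assoc]
  exact (c_comm _)

theorem pDp : pq true * (Δ * pq true) = c * pq false := by
  show σ 0 * (Δ * σ 0) = c * (σ 1)⁻¹
  rw [eq_mul_inv_iff_mul_eq, Δ_a, c]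
  conv_rhs => rw [show Δ = σ 0 * σ 1 * σ 0 from rfl]
  simp only [mul_assoc]
  rw [Δ_b]
  have : Δ = σ 0 * (σ 1 * σ 0) := by rw [← mul_assoc]; rfl
  rw [this]

theorem qDq : pq false * (Δ * pq false) = pq true := by
  show (σ 1)⁻¹ * (Δ * (σ 1)⁻¹) = σ 0
  have : Δ = σ 1 * σ 0 * σ 1 := braid_rel
  rw [this]; group

theorem pDq : pq true * (Δ * pq false) = Δ := by
  show (σ 0) * (Δ * (σ 1)⁻¹) = Δ
  have h : Δ = σ 1 * σ 0 * σ 1 := braid_rel
  conv_lhs => rw [h]
  show _ = σ 0 * σ 1 * σ 0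
  group

theorem qDp : pq false * (Δ * pq true) = Δ := by
  show (σ 1)⁻¹ * (Δ * (σ 0)) = Δ
  rw [Δ_a, inv_mul_cancel_left]

/-- normal forms -/
def NF (g : B3) : Prop := ∃ (m : ℤ) (e : Bool) (h : List Bool) (e' : Bool),
  g = c ^ m * (dd e * (evL h * dd e'))

theorem NF_one : NF 1 := ⟨0, false, [], false, by simp [dd, evL]⟩

theorem NF_c {g : B3} (k : ℤ) (hg : NF g) : NF (c ^ k * g) := by
  obtain ⟨m, e, h, e', rfl⟩ := hg
  exact ⟨k + m, e, h, e', by rw [zpow_add, mul_assoc]⟩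

theorem NF_c' {g : B3} (hg : NF g) : NF (c * g) := by
  have := NF_c 1 hg; rwa [zpow_one] at this

theorem NF_cinv {g : B3} (hg : NF g) : NF (c⁻¹ * g) := by
  have := NF_c (-1) hg; rwa [zpow_neg_one] at this

theorem c_left (x : B3) (m : ℤ) (y : B3) : x * (c ^ m * y) = c ^ m * (x * y) := by
  rw [← mul_assoc, ← mul_assoc, ((c_comm x).zpow_left m).eq]

theorem NF_D {g : B3} (hg : NF g) : NF (Δ * g) := by
  obtain ⟨m, e, h, e', rfl⟩ := hg
  rw [c_left]
  apply NF_c
  cases e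
  · exact ⟨0, true, h, e', by simp [dd]⟩
  · refine ⟨1, false, h, e', ?_⟩
    simp only [dd, if_true, zpow_one, Bool.false_eq_true, if_false, one_mul]
    rw [← mul_assoc, c]

theorem NF_pq {g : B3} (b : Bool) (hg : NF g) : NF (pq b * g) := by
  obtain ⟨m, e, h, e', rfl⟩ := hg
  rw [c_left]
  apply NF_c
  cases e
  · exact ⟨0, false, b :: h, e', by simp [dd, evL, mul_assoc]⟩
  · rcases h with _ | ⟨b', h⟩
    · cases e'
      · exact ⟨0, false, [b], true, by simp [dd, evL]⟩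
      · refine ⟨1, false, [b], false, ?_⟩
        simp only [dd, evL, if_true, List.map_nil, List.prod_nil, one_mul, zpow_one,
          Bool.false_eq_true, if_false, List.map_cons, List.prod_cons, mul_one]
        exact (c_comm _).symm
    · have h1 : pq b * (dd true * (evL (b' :: h) * dd e')) = (pq b * (Δ * pq b')) * (evL h * dd e') := by
        simp [dd, evL, mul_assoc]
      rw [h1]
      cases b <;> cases b'
      · rw [qDq]; exact ⟨0, false, true :: h, e', by simp [dd, evL, mul_assoc]⟩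
      · rw [qDp]; exact ⟨0, true, h, e', by simp [dd]⟩
      · rw [pDq]; exact ⟨0, true, h, e', by simp [dd]⟩
      · rw [pDp]; exact ⟨1, false, false :: h, e', by simp [dd, evL, mul_assoc]⟩

theorem NF_gen {g : B3} (hg : NF g) : NF (σ 0 * g) ∧ NF (σ 1 * g) ∧ NF ((σ 0)⁻¹ * g) ∧ NF ((σ 1)⁻¹ * g) := by
  refine ⟨NF_pq true hg, ?_, ?_, NF_pq false hg⟩
  · rw [b_eq, mul_assoc, mul_assoc, mul_assoc]
    exact NF_cinv (NF_D (NF_pq true (NF_D hg)))
  · rw [a_inv, mul_assoc, mul_assoc, mul_assoc]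
    exact NF_cinv (NF_D (NF_pq false (NF_D hg)))

theorem nf (g : B3) : NF g := by
  have h : g ∈ Subgroup.closure (Set.range σ) := closure_σ ▸ Subgroup.mem_top g
  induction h using Subgroup.closure_induction_left with
  | one => exact NF_one
  | mul_left x hx y _ ih =>
    obtain ⟨i, rfl⟩ := hx
    fin_cases i
    · exact (NF_gen ih).1
    · exact (NF_gen ih).2.1
  | inv_mul_cancel x hx y _ ih =>
    obtain ⟨i, rfl⟩ := hx
    fin_cases i
    · exact (NF_gen ih).2.2.1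
    · exact (NF_gen ih).2.2.2

/-! ### the image in `SL₂(ℤ)` -/

open Matrix in
/-- the images of the generators in `SL₂(ℤ)` -/
def gSL (i : Fin 2) : SpecialLinearGroup (Fin 2) ℤ :=
  if i = 0 then ⟨!![1, 1; 0, 1], by simp⟩ else ⟨!![1, 0; -1, 1], by simp⟩

/-- the homomorphism to `SL₂(ℤ)` -/
def toSL : B3 →* Matrix.SpecialLinearGroup (Fin 2) ℤ := lift gSL (by decide)

/-- the matrix of a braid -/
def mat (g : B3) : Matrix (Fin 2) (Fin 2) ℤ := (toSL g).val

theorem mat_mul (g h : B3) : mat (g * h) = mat g * mat h := by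
  unfold mat; rw [map_mul]; rfl

theorem mat_one : mat 1 = 1 := by
  unfold mat; rw [map_one]; rfl

theorem mat_inv (g : B3) : mat g⁻¹ = Matrix.adjugate (mat g) := by
  unfold mat; rw [map_inv]; rfl

theorem mat_det (g : B3) : (mat g).det = 1 := (toSL g).2

theorem det_eq (g : B3) : mat g 0 0 * mat g 1 1 - mat g 0 1 * mat g 1 0 = 1 := by
  rw [← Matrix.det_fin_two, mat_det]

theorem mat_0 : mat (σ 0) = !![1, 1; 0, 1] := by
  unfold mat toSL; rw [lift_σ]; rfl

theorem mat_1 : mat (σ 1) = !![1, 0; -1, 1] := by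
  unfold mat toSL; rw [lift_σ]; rfl

theorem mat_0' : mat (σ 0)⁻¹ = !![1, -1; 0, 1] := by
  rw [mat_inv, mat_0, Matrix.adjugate_fin_two_of]; rfl

theorem mat_1' : mat (σ 1)⁻¹ = !![1, 0; 1, 1] := by
  rw [mat_inv, mat_1, Matrix.adjugate_fin_two_of]; simp

theorem mat_Δ : mat Δ = !![0, 1; -1, 0] := by
  unfold Δ
  rw [mat_mul, mat_mul, mat_0, mat_1]
  decide

theorem mat_c : mat c = -1 := by
  rw [c, mat_mul, mat_Δ]
  decide

theorem toSL_c : toSL c = -1 := Subtype.ext mat_c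

theorem mat_cpow (m : ℤ) : mat (c ^ m) = 1 ∨ mat (c ^ m) = -1 := by
  unfold mat
  rw [map_zpow, toSL_c]
  rcases Int.even_or_odd m with hk | hk
  · left; rw [hk.neg_one_zpow]; rfl
  · right; rw [hk.neg_one_zpow]; rfl

theorem ev_pos (h : List Bool) : 1 ≤ (mat (evL h)) 0 0 ∧ 1 ≤ (mat (evL h)) 1 1 ∧
    0 ≤ (mat (evL h)) 0 1 ∧ 0 ≤ (mat (evL h)) 1 0 ∧
    (h ≠ [] → 1 ≤ (mat (evL h)) 0 1 + (mat (evL h)) 1 0) := by
  induction h with
  | nil => simp [evL, mat_one]
  | cons b h ih =>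
    obtain ⟨h1, h2, h3, h4, _⟩ := ih
    have e1 : (mat (evL (b :: h))) = (mat (pq b)) * (mat (evL h)) := by
      rw [← mat_mul]; simp [evL]
    rw [e1]
    cases b
    · have e2 : (mat (pq false)) = !![1, 0; 1, 1] := mat_1'
      rw [e2, Matrix.eta_fin_two (mat (evL h))]
      simp only [Matrix.mul_fin_two]
      simp
      refine ⟨h1, ?_, h3, ?_, ?_⟩ <;> linarith
    · have e2 : (mat (pq true)) = !![1, 1; 0, 1] := mat_0
      rw [e2, Matrix.eta_fin_two (mat (evL h))]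
      simp only [Matrix.mul_fin_two]
      simp
      refine ⟨?_, h2, ?_, h4, ?_⟩ <;> linarith

/-- the kernel of the homomorphism to `PSL₂(ℤ)` consists of the powers of `Δ²` -/
theorem ker_PSL {g : B3} (hg : mat g = 1 ∨ mat g = -1) : ∃ m : ℤ, g = c ^ m := by
  obtain ⟨m, e, h, e', rfl⟩ := nf g
  have h0 : (mat (dd e * (evL h * dd e'))) = 1 ∨ (mat (dd e * (evL h * dd e'))) = -1 := by
    rw [mat_mul] at hg
    have h3 : ∀ x y : Matrix (Fin 2) (Fin 2) ℤ, (x = 1 ∨ x = -1) → (x * y = 1 ∨ x * y = -1) →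
        (y = 1 ∨ y = -1) := by
      rintro x y (rfl | rfl) (h | h)
      · left; rw [one_mul] at h; exact h
      · right; rw [one_mul] at h; exact h
      · right; rw [neg_mul, one_mul] at h; rw [← h, neg_neg]
      · left; rw [neg_mul, one_mul] at h; exact neg_injective h
    exact h3 _ _ (mat_cpow m) hg
  obtain ⟨h1, h2, h3, h4, h5⟩ := ev_pos h
  rw [mat_mul, mat_mul] at h0
  have hne : ∀ M : Matrix (Fin 2) (Fin 2) ℤ, (M = 1 ∨ M = -1) → M 0 1 = 0 ∧ M 1 0 = 0 := by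
    rintro M (rfl | rfl) <;> simp
  obtain ⟨g1, g2⟩ := hne _ h0
  have hd1 : mat (dd true) = !![0, 1; -1, 0] := mat_Δ
  have hd0 : mat (dd false) = !![1, 0; 0, 1] := by
    show mat 1 = _
    rw [mat_one, Matrix.one_fin_two]
  rw [Matrix.eta_fin_two (mat (evL h))] at g1 g2
  cases e <;> cases e'
  · rw [hd0, Matrix.mul_fin_two, Matrix.mul_fin_two] at g1 g2
    simp at g1 g2
    have : h = [] := by
      by_contra hn
      have := h5 hn
      omega
    subst this
    exact ⟨m, by simp [dd, evL]⟩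
  · rw [hd0, hd1, Matrix.mul_fin_two, Matrix.mul_fin_two] at g1 g2
    simp at g1 g2
    omega
  · rw [hd0, hd1, Matrix.mul_fin_two, Matrix.mul_fin_two] at g1 g2
    simp at g1 g2
    omega
  · rw [hd1, Matrix.mul_fin_two, Matrix.mul_fin_two] at g1 g2
    simp at g1 g2
    have : h = [] := by
      by_contra hn
      have := h5 hn
      omega
    subst this
    refine ⟨m + 1, ?_⟩
    simp [dd, evL, zpow_add, c]

/-- braids with the same image up to sign -/
theorem eq_of_mat {g g₀ : B3} (h : mat g = mat g₀ ∨ mat g = -(mat g₀)) :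
    ∃ m : ℤ, g = c ^ m * g₀ := by
  have h2 : mat g₀ * mat g₀⁻¹ = 1 := by rw [← mat_mul, mul_inv_cancel, mat_one]
  have h1 : mat (g * g₀⁻¹) = 1 ∨ mat (g * g₀⁻¹) = -1 := by
    rw [mat_mul]
    rcases h with h | h
    · left; rw [h, h2]
    · right; rw [h, neg_mul, h2]
  obtain ⟨m, hm⟩ := ker_PSL h1
  exact ⟨m, by rw [← hm, inv_mul_cancel_right]⟩

end Pool.Agent.KS6_91.TB
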