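import Pool.Agent.KS6_91.TB.Solve

/-!
# The braids whose bracket is a unit
-/

set_option autoImplicit false

namespace Pool.Agent.KS6_91.TB

open LaurentPolynomial Pool.Agent.H891R2.Jones Pool.Agent.W639.RB

/-- `p = ± A^n` -/
def IsMono (p : ℤ[T;T⁻¹]) : Prop := ∃ n : ℤ, p = T n ∨ p = -T n

/-! ### values -/

section field

variable {K : Type*} [Field K] {A : K}

/-- evaluation of Laurent polynomials -/
noncomputable def phi (hA : A ≠ 0) : ℤ[T;T⁻¹] →+* K :=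
  LaurentPolynomial.eval₂ (Int.castRingHom K) (Units.mk0 A hA)

theorem phi_T (hA : A ≠ 0) (n : ℤ) : phi hA (T n) = A ^ n := by
  unfold phi
  rw [LaurentPolynomial.eval₂_T]
  simp

theorem phi_dlt (hA : A ≠ 0) : phi hA dlt = -A ^ 2 - A⁻¹ ^ 2 := by
  unfold dlt
  rw [map_sub, map_neg, phi_T, phi_T, zpow_neg, inv_pow]
  norm_cast

theorem phi_RL (hA : A ≠ 0) (w : List (Bool × ℕ)) (i j : Fin 2) :
    phi hA (RL w i j) = rep hA (toB w) i j := by
  have h := congrFun (congrFun (RK_map (phi hA) (T 1) (T (-1)) w) i) j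
  rw [Matrix.map_apply, phi_T, phi_T, zpow_one, zpow_neg_one, RK_toB hA] at h
  exact h

theorem rep_c_mul (hA : A ≠ 0) (m : ℤ) (g : B3) : rep hA (c ^ m * g) = A ^ (-6 * m) • rep hA g := by
  rw [rep_mul, rep_cpow, smul_mul_assoc, one_mul]

theorem expB_c_mul (m : ℤ) (g : B3) : expB (c ^ m * g) = 6 * m + expB g := by
  rw [expB_mul, expB_zpow, expB_c]; ring

theorem Fs_c_mul (hA : A ≠ 0) (d : K) (m : ℤ) (g : B3) : Fs hA d (c ^ m * g) =
    d * A ^ (6 * m + expB g) + A ^ (-6 * m) * (rep hA g 0 0 + rep hA g 0 1 + (d + 1) * rep hA g 1 0) := by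
  unfold Fs
  rw [rep_c_mul, expB_c_mul]
  simp only [Matrix.smul_apply, smul_eq_mul]
  ring

theorem Fh_c_mul (hA : A ≠ 0) (d : K) (m : ℤ) (g : B3) : Fh hA d (c ^ m * g) =
    (d + 2) * (d - 1) * A ^ (6 * m + expB g) +
      A ^ (-6 * m) * (rep hA g 0 0 + rep hA g 0 1 + rep hA g 1 0 + rep hA g 1 1) := by
  unfold Fh
  rw [rep_c_mul, expB_c_mul]
  simp only [Matrix.smul_apply, smul_eq_mul]
  ring

theorem Fl_c_mul (hA : A ≠ 0) (d : K) (m : ℤ) (g : B3) : Fl hA d (c ^ m * g) =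
    (d ^ 2 - 2) * A ^ (6 * m + expB g) +
      A ^ (-6 * m) * ((d + 1) * rep hA g 0 0 + rep hA g 1 0 + rep hA g 1 1) := by
  unfold Fl
  rw [rep_c_mul, expB_c_mul]
  simp only [Matrix.smul_apply, smul_eq_mul]
  ring

theorem Fc_c_mul (hA : A ≠ 0) (d : K) (m : ℤ) (g : B3) : Fc hA d (c ^ m * g) =
    A ^ (-6 * m) * Fc hA d g := by
  unfold Fc
  rw [rep_c_mul]
  simp only [Matrix.smul_apply, smul_eq_mul]
  ring

theorem Fs_spiral (hA : A ≠ 0) {d : K} (hd : d = -A ^ 2 - A⁻¹ ^ 2) (m k : ℤ) :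
    Fs hA d (c ^ m * (σ 1 ^ k * σ 0 ^ (-k))) = d * A ^ (6 * m) + A ^ (-6 * m) := by
  have h1 : c ^ m * (σ 1 ^ k * σ 0 ^ (-k)) = σ 1 ^ k * (c ^ m * σ 0 ^ (-k)) := by
    rw [← mul_assoc, ← mul_assoc, ((c_comm _).zpow_left m).eq]
  rw [h1, slide_pow _ _ _ (Fs_slide hA hd), mul_assoc, ← zpow_add, neg_add_cancel, zpow_zero,
    Fs_c_mul, rep_one, expB_one]
  simp

theorem Fl_slide (hA : A ≠ 0) {d : K} (hd : d = -A ^ 2 - A⁻¹ ^ 2) (g : B3) :
    Fl hA d (σ 0 * g) = Fl hA d (g * σ 0) := by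
  unfold Fl
  rw [rep_mul, rep_mul, rep_0, Matrix.eta_fin_two (rep hA g), Matrix.mul_fin_two,
    Matrix.mul_fin_two, expB_mul, expB_mul, expB_σ, add_comm (1 : ℤ)]
  simp
  subst hd
  field_simp
  ring

theorem Fl_loop (hA : A ≠ 0) {d : K} (hd : d = -A ^ 2 - A⁻¹ ^ 2) (m k s : ℤ) :
    Fl hA d (c ^ m * (σ 0 ^ k * (σ 1 ^ s * σ 0 ^ (-k)))) = Fl hA d (c ^ m * σ 1 ^ s) := by
  have h1 : c ^ m * (σ 0 ^ k * (σ 1 ^ s * σ 0 ^ (-k))) = σ 0 ^ k * (c ^ m * (σ 1 ^ s * σ 0 ^ (-k))) := by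
    rw [← mul_assoc, ← mul_assoc (σ 0 ^ k), ((c_comm _).zpow_left m).eq]
  rw [h1, slide_pow _ _ _ (Fl_slide hA hd), mul_assoc, mul_assoc, ← zpow_add, neg_add_cancel, zpow_zero,
    mul_one]

theorem Fc_slide (hA : A ≠ 0) {d : K} (hd : d = -A ^ 2 - A⁻¹ ^ 2) (g : B3) :
    Fc hA d (σ 1 * g) = (-A⁻¹ ^ 3) * Fc hA d g := by
  unfold Fc
  rw [rep_mul, rep_1, Matrix.eta_fin_two (rep hA g), Matrix.mul_fin_two]
  simp
  subst hd
  field_simp
  ring

theorem Fc_slide_pow (hA : A ≠ 0) {d : K} (hd : d = -A ^ 2 - A⁻¹ ^ 2) (k : ℤ) (g : B3) :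
    Fc hA d (σ 1 ^ k * g) = (-A⁻¹ ^ 3) ^ k * Fc hA d g := by
  have h0 : (-A⁻¹ ^ 3) ≠ 0 := neg_ne_zero.2 (pow_ne_zero _ (inv_ne_zero hA))
  have hneg : ∀ g : B3, Fc hA d ((σ 1)⁻¹ * g) = (-A⁻¹ ^ 3)⁻¹ * Fc hA d g := by
    intro g
    have h := Fc_slide hA hd ((σ 1)⁻¹ * g)
    rw [mul_inv_cancel_left] at h
    rw [h, inv_mul_cancel_left₀ h0]
  induction k generalizing g with
  | zero => simp
  | succ n ih => rw [zpow_add_one, mul_assoc, ih, Fc_slide hA hd, zpow_add_one₀ h0]; ring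
  | pred n ih => rw [zpow_sub_one, mul_assoc, ih, hneg, zpow_sub_one₀ h0]; ring

end field

/-! ### two-adic comparison -/

theorem two_adic {p q : ℤ} (hq : Odd q) {x y n : ℤ} (hxy : y < x) {e : ℤ} (he : e = 1 ∨ e = -1)
    (h : (p : ℚ) * 2 ^ x + q * 2 ^ y = (e : ℚ) * 13 * 2 ^ n) : q + p * 2 ^ (x - y).toNat = 13 * e := by
  have h2 : (2 : ℚ) ≠ 0 := by norm_num
  obtain ⟨s, hs⟩ : ∃ s : ℕ, x - y = (s : ℤ) + 1 := ⟨(x - y - 1).toNat, by omega⟩
  have hs' : (x - y).toNat = s + 1 := by omega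
  rw [hs']
  have h1 : ((q + p * 2 ^ (s + 1) : ℤ) : ℚ) = (e : ℚ) * 13 * 2 ^ (n - y) := by
    have hx : x = y + ((s : ℤ) + 1) := by omega
    rw [zpow_sub₀ h2]
    have hy : (2 : ℚ) ^ y ≠ 0 := zpow_ne_zero _ h2
    field_simp
    rw [hx, zpow_add₀ h2] at h
    push_cast
    have h5 : (2 : ℚ) ^ ((s : ℤ) + 1) = 2 ^ (s + 1) := by norm_cast
    rw [h5] at h
    linear_combination h
  have hodd : Odd (q + p * 2 ^ (s + 1)) := by
    apply hq.add_even
    rw [pow_succ]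
    exact ⟨p * 2 ^ s, by ring⟩
  have hodd2 : Odd (13 * e) := by rcases he with rfl | rfl <;> decide
  rcases lt_trichotomy (n - y) 0 with h3 | h3 | h3
  · exfalso
    obtain ⟨t, ht⟩ : ∃ t : ℕ, n - y = -((t : ℤ) + 1) := ⟨(-(n - y) - 1).toNat, by omega⟩
    rw [ht] at h1
    have h4 : (q + p * 2 ^ (s + 1)) * 2 ^ (t + 1) = 13 * e := by
      have : ((q + p * 2 ^ (s + 1) : ℤ) : ℚ) * 2 ^ (t + 1) = 13 * e := by
        rw [h1, zpow_neg]
        have h5 : (2 : ℚ) ^ ((t : ℤ) + 1) = 2 ^ (t + 1) := by norm_cast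
        rw [h5]
        field_simp
      exact_mod_cast this
    rw [← h4, Int.odd_mul, pow_succ (2 : ℤ) t, Int.odd_mul] at hodd2
    exact absurd hodd2.2.2 (by decide)
  · rw [h3, zpow_zero, mul_one] at h1
    have : q + p * 2 ^ (s + 1) = e * 13 := by exact_mod_cast h1
    rw [this]; ring
  · exfalso
    obtain ⟨t, ht⟩ : ∃ t : ℕ, n - y = (t : ℤ) + 1 := ⟨(n - y - 1).toNat, by omega⟩
    rw [ht] at h1
    have h4 : (q + p * 2 ^ (s + 1)) = e * 13 * 2 ^ (t + 1) := by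
      have h5 : (2 : ℚ) ^ ((t : ℤ) + 1) = 2 ^ (t + 1) := by norm_cast
      rw [h5] at h1
      exact_mod_cast h1
    rw [h4, pow_succ] at hodd
    rw [Int.odd_mul, Int.odd_mul, Int.odd_mul] at hodd
    exact absurd hodd.2.2 (by decide)

/-- the exponent `m` vanishes -/
theorem m_zero {p q : ℤ} (hp : Odd p) (hq : Odd q) {a b m n e : ℤ} (he : e = 1 ∨ e = -1) 
    (hab : -4 ≤ a - b ∧ a - b ≤ 4)
    (hb1 : ∀ t : ℤ, 1 ≤ t → q + p * (256 * t) ≠ 13 * e)
    (hb2 : ∀ t : ℤ, 1 ≤ t → p + q * (256 * t) ≠ 13 * e)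
    (h : (p : ℚ) * 2 ^ (a + 6 * m) + q * 2 ^ (b - 6 * m) = (e : ℚ) * 13 * 2 ^ n) : m = 0 := by
  have hpow : ∀ s : ℤ, 8 ≤ s → ∃ t : ℤ, 1 ≤ t ∧ (2 : ℤ) ^ s.toNat = 256 * t := by
    intro s hs
    refine ⟨2 ^ (s.toNat - 8), ?_, ?_⟩
    · exact_mod_cast Nat.one_le_two_pow
    · have : s.toNat = (s.toNat - 8) + 8 := by omega
      rw [this, pow_add]
      norm_num; ring
  by_contra hm
  rcases lt_or_gt_of_ne hm with h1 | h1
  · have h2 := two_adic (p := q) (q := p) hp (x := b - 6 * m) (y := a + 6 * m) (n := n) (by omega) he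
      (by rw [← h]; ring)
    obtain ⟨t, ht, ht2⟩ := hpow (b - 6 * m - (a + 6 * m)) (by omega)
    rw [ht2] at h2
    exact hb2 t ht h2
  · have h2 := two_adic (p := p) (q := q) hq (x := a + 6 * m) (y := b - 6 * m) (n := n) (by omega) he h
    obtain ⟨t, ht, ht2⟩ := hpow (a + 6 * m - (b - 6 * m)) (by omega)
    rw [ht2] at h2
    exact hb1 t ht h2

/-! ### the four solutions -/

theorem two_ne : (2 : ℚ) ≠ 0 := by norm_num

theorem d_two : (-17 / 4 : ℚ) = -2 ^ 2 - (2 : ℚ)⁻¹ ^ 2 := by norm_num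

theorem sol_spiral {g : B3} (h1 : ∀ (z : ℂ) (hz : z ^ 2 = Complex.I), ‖Fs (z_ne hz) 0 g‖ = 1)
    {n e : ℤ} (he : e = 1 ∨ e = -1) (h2 : Fs two_ne (-17 / 4) g = (-13 / 4) * e * 2 ^ n) :
    ∃ k : ℤ, g = σ 1 ^ k * σ 0 ^ (-k) := by
  obtain ⟨z, hz⟩ := exists_z
  obtain ⟨m, k, rfl⟩ := spiral_mat g ((Fs_z hz g).1 (h1 z hz))
  rw [Fs_spiral two_ne d_two] at h2
  have hm : m = 0 := by
    apply m_zero (p := 17) (q := -1) (a := -2) (b := 0) (n := n - 2) (e := e) (by decide) (by decide) he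
      (by norm_num) (by rcases he with rfl | rfl <;> intro t ht <;> omega)
      (by rcases he with rfl | rfl <;> intro t ht <;> omega)
    rw [zpow_add₀ two_ne, zpow_sub₀ two_ne n]
    have e1 : (2 : ℚ) ^ (0 - 6 * m) = 2 ^ (-6 * m) := by congr 1; ring
    rw [e1]
    norm_num at h2 ⊢
    linear_combination -h2
  exact ⟨k, by rw [hm, zpow_zero, one_mul]⟩

/-- the exponent vanishes, in the form in which it is used -/
theorem m_zero' {p q : ℤ} (hp : Odd p) (hq : Odd q) {a b m n e : ℤ} (he : e = 1 ∨ e = -1) 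
    (hab : -4 ≤ a - b ∧ a - b ≤ 4)
    (hb1 : ∀ t : ℤ, 1 ≤ t → q + p * (256 * t) ≠ 13 * e)
    (hb2 : ∀ t : ℤ, 1 ≤ t → p + q * (256 * t) ≠ 13 * e) {x y z : ℚ}
    (hx : x = p * 2 ^ a) (hy : y = q * 2 ^ b) (hz : z = e * 13 / 4)
    (h : x * 2 ^ (6 * m) + 2 ^ (-6 * m) * y = z * 2 ^ n) : m = 0 := by
  apply m_zero hp hq (n := n - 2) he hab hb1 hb2
  rw [zpow_add₀ two_ne, sub_eq_add_neg, zpow_add₀ two_ne, zpow_sub₀ two_ne n]
  have e1 : (2 : ℚ) ^ (-(6 * m)) = 2 ^ (-6 * m) := by congr 1; ring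
  rw [e1]
  rw [hx, hy, hz] at h
  norm_num at h ⊢
  linear_combination h

theorem sol_hooks {g : B3} (h1 : ∀ (z : ℂ) (hz : z ^ 2 = Complex.I), ‖Fh (z_ne hz) 0 g‖ = 1)
    {n e : ℤ} (he : e = 1 ∨ e = -1) (h2 : Fh two_ne (-17 / 4) g = (-13 / 4) * e * 2 ^ n) : Eight g := by
  obtain ⟨z, hz⟩ := exists_z
  obtain ⟨m, g₀, h8, rfl⟩ := hooks_mat g ((Fh_z hz g).1 (h1 z hz))
  rw [Fh_c_mul, zpow_add₀ two_ne, mul_comm (2 ^ (6 * m) : ℚ), ← mul_assoc] at h2
  have he' : -e = 1 ∨ -e = -1 := by omega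
  have key : ∀ (x y : ℚ) (p q a b : ℤ), Odd p → Odd q → (-4 ≤ a - b ∧ a - b ≤ 4) → 
      (∀ t : ℤ, 1 ≤ t → q + p * (256 * t) ≠ 13 * -e) → 
      (∀ t : ℤ, 1 ≤ t → p + q * (256 * t) ≠ 13 * -e) →
      x = p * 2 ^ a → y = q * 2 ^ b → 
      x * 2 ^ (6 * m) + 2 ^ (-6 * m) * y = (-13 / 4) * e * 2 ^ n → m = 0 := by
    intro x y p q a b hp hq hab hb1 hb2 hx hy h
    exact m_zero' hp hq he' hab hb1 hb2 hx hy (z := (-13 / 4) * e) (by push_cast; ring) h
  have hm : m = 0 := by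
    cases h8 with
    | a =>
      refine key _ _ 189 19 (-3) (-3) (by decide) (by decide) (by norm_num) ?_ ?_ ?_ ?_ h2
      · rcases he with rfl | rfl <;> intro t ht <;> omega
      · rcases he with rfl | rfl <;> intro t ht <;> omega
      · rw [expB_σ]; norm_num
      · rw [rep_0]; norm_num
    | a' =>
      refine key _ _ 189 (-11) (-5) (-1) (by decide) (by decide) (by norm_num) ?_ ?_ ?_ ?_ h2
      · rcases he with rfl | rfl <;> intro t ht <;> omega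
      · rcases he with rfl | rfl <;> intro t ht <;> omega
      · rw [expB_inv, expB_σ]; norm_num
      · rw [rep_0']; norm_num
    | b =>
      refine key _ _ 189 19 (-3) (-3) (by decide) (by decide) (by norm_num) ?_ ?_ ?_ ?_ h2
      · rcases he with rfl | rfl <;> intro t ht <;> omega
      · rcases he with rfl | rfl <;> intro t ht <;> omega
      · rw [expB_σ]; norm_num
      · rw [rep_1]; norm_num
    | b' =>
      refine key _ _ 189 (-11) (-5) (-1) (by decide) (by decide) (by norm_num) ?_ ?_ ?_ ?_ h2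
      · rcases he with rfl | rfl <;> intro t ht <;> omega
      · rcases he with rfl | rfl <;> intro t ht <;> omega
      · rw [expB_inv, expB_σ]; norm_num
      · rw [rep_1']; norm_num
    | ab' =>
      refine key _ _ 189 (-241) (-4) (-4) (by decide) (by decide) (by norm_num) ?_ ?_ ?_ ?_ h2
      · rcases he with rfl | rfl <;> intro t ht <;> omega
      · rcases he with rfl | rfl <;> intro t ht <;> omega
      · rw [expB_mul, expB_inv, expB_σ, expB_σ]; norm_num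
      · rw [rep_mul, rep_0, rep_1', Matrix.mul_fin_two]; norm_num
    | b'a =>
      refine key _ _ 189 (-241) (-4) (-4) (by decide) (by decide) (by norm_num) ?_ ?_ ?_ ?_ h2
      · rcases he with rfl | rfl <;> intro t ht <;> omega
      · rcases he with rfl | rfl <;> intro t ht <;> omega
      · rw [expB_mul, expB_inv, expB_σ, expB_σ]; norm_num
      · rw [rep_mul, rep_0, rep_1', Matrix.mul_fin_two]; norm_num
    | a'b =>
      refine key _ _ 189 (-241) (-4) (-4) (by decide) (by decide) (by norm_num) ?_ ?_ ?_ ?_ h2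
      · rcases he with rfl | rfl <;> intro t ht <;> omega
      · rcases he with rfl | rfl <;> intro t ht <;> omega
      · rw [expB_mul, expB_inv, expB_σ, expB_σ]; norm_num
      · rw [rep_mul, rep_0', rep_1, Matrix.mul_fin_two]; norm_num
    | ba' =>
      refine key _ _ 189 (-241) (-4) (-4) (by decide) (by decide) (by norm_num) ?_ ?_ ?_ ?_ h2
      · rcases he with rfl | rfl <;> intro t ht <;> omega
      · rcases he with rfl | rfl <;> intro t ht <;> omega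
      · rw [expB_mul, expB_inv, expB_σ, expB_σ]; norm_num
      · rw [rep_mul, rep_0', rep_1, Matrix.mul_fin_two]; norm_num
  rw [hm, zpow_zero, one_mul]
  exact h8

theorem sol_loop {g : B3} (h1 : ∀ (z : ℂ) (hz : z ^ 2 = Complex.I), ‖Fl (z_ne hz) 0 g‖ = 1)
    {n e : ℤ} (he : e = 1 ∨ e = -1) (h2 : Fl two_ne (-17 / 4) g = (-13 / 4) * e * 2 ^ n) :
    ∃ k s : ℤ, (s = 1 ∨ s = -1) ∧ g = σ 0 ^ k * σ 1 ^ s * σ 0 ^ (-k) := by
  obtain ⟨z, hz⟩ := exists_z
  obtain ⟨m, k, s, hs, rfl⟩ := loop_mat g ((Fl_z hz g).1 (h1 z hz))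
  rw [Fl_loop two_ne d_two, Fl_c_mul, zpow_add₀ two_ne, mul_comm (2 ^ (6 * m) : ℚ), ← mul_assoc] at h2
  have he' : -e = 1 ∨ -e = -1 := by omega
  have hm : m = 0 := by
    rcases hs with rfl | rfl
    · refine m_zero' (p := 257) (q := -49) (a := -3) (b := -3) (by decide) (by decide) he' (by norm_num)
        ?_ ?_ ?_ ?_ (z := (-13 / 4) * e) (by push_cast; ring) h2
      · rcases he with rfl | rfl <;> intro t ht <;> omega
      · rcases he with rfl | rfl <;> intro t ht <;> omega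
      · rw [zpow_one, expB_σ]; norm_num
      · rw [zpow_one, rep_1]; norm_num
    · refine m_zero' (p := 257) (q := -61) (a := -5) (b := -3) (by decide) (by decide) he' (by norm_num)
        ?_ ?_ ?_ ?_ (z := (-13 / 4) * e) (by push_cast; ring) h2
      · rcases he with rfl | rfl <;> intro t ht <;> omega
      · rcases he with rfl | rfl <;> intro t ht <;> omega
      · rw [zpow_neg_one, expB_inv, expB_σ]; norm_num
      · rw [zpow_neg_one, rep_1']; norm_num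
  exact ⟨k, s, hs, by rw [hm, zpow_zero, one_mul, mul_assoc]⟩

theorem c_zpow (m : ℤ) : c ^ m = Δ ^ (2 * m) := by
  rw [zpow_mul, c]; congr 1

theorem sol_cap {g : B3} (h1 : ∀ (z : ℂ) (hz : z ^ 2 = Complex.I), ‖Fc (z_ne hz) 0 g‖ = 1) :
    ∃ k n : ℤ, g = σ 1 ^ k * Δ ^ n := by
  obtain ⟨z, hz⟩ := exists_z
  obtain ⟨m, k, h | h⟩ := cap_mat g ((Fc_z hz g).1 (h1 z hz))
  · exact ⟨k, 2 * m, by rw [h, ← c_zpow, ((c_comm _).zpow_left m).eq]⟩
  · exact ⟨k, 2 * m + 1, by rw [h, zpow_add, zpow_one, ← c_zpow, ← mul_assoc, ← mul_assoc,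
      ((c_comm _).zpow_left m).eq]⟩

theorem sol_turn {g : B3} (h1 : ∀ (z : ℂ) (hz : z ^ 2 = Complex.I), ‖Ft (z_ne hz) 0 g‖ = 1) :
    ∃ k n : ℤ, g = Δ ^ n * σ 0 ^ k := by
  obtain ⟨z, hz⟩ := exists_z
  obtain ⟨m, k, h | h⟩ := turn_mat g ((Ft_z hz g).1 (h1 z hz))
  · exact ⟨k, 2 * m, by rw [h, ← c_zpow]⟩
  · exact ⟨k, 2 * m + 1, by rw [h, zpow_add, zpow_one, ← c_zpow, mul_assoc]⟩

theorem Ft_slide {K : Type*} [Field K] {A : K} (hA : A ≠ 0) (d : K) (g : B3) :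
    Ft hA d (g * σ 0) = (-A⁻¹ ^ 3) * Ft hA d g := by
  unfold Ft
  rw [rep_mul, rep_0, Matrix.eta_fin_two (rep hA g), Matrix.mul_fin_two]
  simp
  ring

theorem Ft_slide_pow {K : Type*} [Field K] {A : K} (hA : A ≠ 0) (d : K) (k : ℤ) (g : B3) :
    Ft hA d (g * σ 0 ^ k) = (-A⁻¹ ^ 3) ^ k * Ft hA d g := by
  have h0 : (-A⁻¹ ^ 3) ≠ 0 := neg_ne_zero.2 (pow_ne_zero _ (inv_ne_zero hA))
  have hneg : ∀ g : B3, Ft hA d (g * (σ 0)⁻¹) = (-A⁻¹ ^ 3)⁻¹ * Ft hA d g := by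
    intro g
    have h := Ft_slide hA d (g * (σ 0)⁻¹)
    rw [inv_mul_cancel_right] at h
    rw [h, inv_mul_cancel_left₀ h0]
  induction k generalizing g with
  | zero => simp
  | succ n ih =>
    have : g * σ 0 ^ ((n : ℤ) + 1) = (g * σ 0) * σ 0 ^ (n : ℤ) := by
      rw [mul_assoc, ← zpow_one_add, add_comm 1]
    rw [this, ih, Ft_slide hA, zpow_add_one₀ h0]; ring
  | pred n ih =>
    have : g * σ 0 ^ (-(n : ℤ) - 1) = (g * (σ 0)⁻¹) * σ 0 ^ (-(n : ℤ)) := by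
      rw [mul_assoc, ← zpow_neg_one (σ 0), ← zpow_add]; congr 2; ring
    rw [this, ih, hneg, zpow_sub_one₀ h0]; ring

theorem Ft_c_mul {K : Type*} [Field K] {A : K} (hA : A ≠ 0) (d : K) (m : ℤ) (g : B3) :
    Ft hA d (c ^ m * g) = A ^ (-6 * m) * Ft hA d g := by
  unfold Ft
  rw [rep_c_mul]
  simp only [Matrix.smul_apply, smul_eq_mul]
  ring

/-! ### from the bracket to the conditions -/

theorem mono_iff {p F : ℤ[T;T⁻¹]} (h : (dlt + 1) * p = F) :
    (IsMono p → (∀ (z : ℂ) (hz : z ^ 2 = Complex.I), ‖phi (z_ne hz) F‖ = 1) ∧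
      ∃ n e : ℤ, (e = 1 ∨ e = -1) ∧ phi two_ne F = (-13 / 4) * e * 2 ^ n) := by
  rintro ⟨n, hn⟩
  constructor
  · intro z hz
    rw [← h, map_mul, map_add, map_one, phi_dlt]
    have h0 : -z ^ 2 - z⁻¹ ^ 2 = 0 := by
      rw [inv_pow, hz, Complex.inv_I]; ring
    rw [h0, zero_add, one_mul]
    rcases hn with rfl | rfl
    · rw [phi_T, norm_zpow, z_norm hz, one_zpow]
    · rw [map_neg, norm_neg, phi_T, norm_zpow, z_norm hz, one_zpow]
  · rcases hn with rfl | rfl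
    · refine ⟨n, 1, Or.inl rfl, ?_⟩
      rw [← h, map_mul, map_add, map_one, phi_dlt, phi_T]; norm_num
    · refine ⟨n, -1, Or.inr rfl, ?_⟩
      rw [← h, map_mul, map_add, map_one, map_neg, phi_dlt, phi_T]; norm_num

theorem mono_of {p F : ℤ[T;T⁻¹]} (h : (dlt + 1) * p = F) (n : ℤ) (e : ℤ) (he : e = 1 ∨ e = -1)
    (hF : ∀ (N : ℕ) (hN : 3 ≤ N), phi (Ar_ne N hN) F = (N + 1) * (e * Ar N ^ n)) : IsMono p := by
  have h1 : p = (e : ℤ[T;T⁻¹]) * T n := by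
    apply eq_of_ev
    intro N hN
    have h2 := hF N hN
    have h3 : phi (Ar_ne N hN) = ev N hN := rfl
    rw [← h, h3, map_mul, map_add, map_one, ev_dlt] at h2
    have h4 : ((N : ℂ) + 1) ≠ 0 := by exact_mod_cast Nat.succ_ne_zero N
    rw [mul_left_cancel₀ h4 h2, map_mul, ev_T, map_intCast]
  rcases he with rfl | rfl
  · exact ⟨n, Or.inl (by rw [h1]; simp)⟩
  · exact ⟨n, Or.inr (by rw [h1]; simp)⟩

/-! ### the four equivalences for words of natural numbers -/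

section main

variable (up : Fin 3 → Bool) (w : List (Bool × ℕ)) (hw : ∀ x ∈ w, x.2 + 1 < 3)

theorem phi_spiral {K : Type*} [Field K] {A : K} (hA : A ≠ 0) :
    phi hA (dlt * T (expo w) + RL w 0 0 + RL w 0 1 + (dlt + 1) * RL w 1 0) =
      Fs hA (-A ^ 2 - A⁻¹ ^ 2) (toB w) := by
  simp only [map_add, map_mul, map_one, phi_dlt, phi_T, phi_RL, expo_toB]; rfl

theorem phi_hooks {K : Type*} [Field K] {A : K} (hA : A ≠ 0) :
    phi hA ((dlt + 2) * (dlt - 1) * T (expo w) + RL w 0 0 + RL w 0 1 + RL w 1 0 + RL w 1 1) =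
      Fh hA (-A ^ 2 - A⁻¹ ^ 2) (toB w) := by
  simp only [map_add, map_sub, map_mul, map_one, map_ofNat, phi_dlt, phi_T, phi_RL, expo_toB]; rfl

theorem phi_loop {K : Type*} [Field K] {A : K} (hA : A ≠ 0) :
    phi hA ((dlt ^ 2 - 2) * T (expo w) + (dlt + 1) * RL w 0 0 + RL w 1 0 + RL w 1 1) =
      Fl hA (-A ^ 2 - A⁻¹ ^ 2) (toB w) := by
  simp only [map_add, map_sub, map_mul, map_pow, map_one, map_ofNat, phi_dlt, phi_T, phi_RL, expo_toB]; rfl

theorem phi_cap {K : Type*} [Field K] {A : K} (hA : A ≠ 0) :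
    phi hA (RL w 0 0 + RL w 0 1 + dlt * (RL w 1 0 + RL w 1 1)) =
      Fc hA (-A ^ 2 - A⁻¹ ^ 2) (toB w) := by
  simp only [map_add, map_mul, phi_dlt, phi_RL]; rfl

theorem phi_turn {K : Type*} [Field K] {A : K} (hA : A ≠ 0) :
    phi hA ((dlt + 1) * (RL w 0 0 + RL w 1 0)) = Ft hA (-A ^ 2 - A⁻¹ ^ 2) (toB w) := by
  simp only [map_add, map_mul, map_one, phi_dlt, phi_RL]; rfl

theorem d_z {z : ℂ} (hz : z ^ 2 = Complex.I) : -z ^ 2 - z⁻¹ ^ 2 = 0 := by
  rw [inv_pow, hz, Complex.inv_I]; ring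

include hw

theorem main_spiral : IsMono (draw (crossless ![0, 1, 2] ![1, 2, 3] up) w).close.bracket ↔
    ∃ k : ℤ, toB w = σ 1 ^ k * σ 0 ^ (-k) := by
  constructor
  · intro h
    obtain ⟨h1, n, e, he, h2⟩ := mono_iff (br_spiral up w hw) h
    refine sol_spiral (n := n) (e := e) ?_ he ?_
    · intro z hz
      have := h1 z hz
      rwa [phi_spiral, d_z hz] at this
    · rwa [phi_spiral, ← d_two] at h2
  · rintro ⟨k, hk⟩
    refine mono_of (br_spiral up w hw) 0 1 (Or.inl rfl) ?_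
    intro N hN
    have h0 := Ar_ne N hN
    have hs := Fs_spiral h0 (d := -Ar N ^ 2 - (Ar N)⁻¹ ^ 2) rfl 0 k
    rw [zpow_zero, one_mul] at hs
    rw [phi_spiral, hk, hs, ← Ar_d N hN]
    simp

theorem main_hooks : IsMono (draw (crossless ![0, 1, 0] ![2, 3, 2] up) w).close.bracket ↔
    Eight (toB w) := by
  constructor
  · intro h
    obtain ⟨h1, n, e, he, h2⟩ := mono_iff (br_hooks up w hw) h
    refine sol_hooks (n := n) (e := e) ?_ he ?_
    · intro z hz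
      have := h1 z hz
      rwa [phi_hooks, d_z hz] at this
    · rwa [phi_hooks, ← d_two] at h2
  · intro h
    have key : ∀ n e : ℤ, (e = 1 ∨ e = -1) → (∀ (N : ℕ) (hN : 3 ≤ N), 
        Fh (Ar_ne N hN) (-Ar N ^ 2 - (Ar N)⁻¹ ^ 2) (toB w) = 
          ((-Ar N ^ 2 - (Ar N)⁻¹ ^ 2) + 1) * (e * Ar N ^ n)) → 
        IsMono (draw (crossless ![0, 1, 0] ![2, 3, 2] up) w).close.bracket := by
      intro n e he hh
      refine mono_of (br_hooks up w hw) n e he ?_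
      intro N hN
      rw [phi_hooks, hh N hN, ← Ar_d N hN]
    generalize hg : toB w = g at h key
    cases h with
    | a => 
      refine key 3 (-1) (Or.inr rfl) fun N hN => ?_
      have h0 := Ar_ne N hN
      unfold Fh
      rw [rep_0, expB_σ]
      simp
      field_simp
      ring
    | a' =>
      refine key (-3) (-1) (Or.inr rfl) fun N hN => ?_
      have h0 := Ar_ne N hN
      unfold Fh
      rw [rep_0', expB_inv, expB_σ]
      simp
      field_simp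
      ring
    | b =>
      refine key 3 (-1) (Or.inr rfl) fun N hN => ?_
      have h0 := Ar_ne N hN
      unfold Fh
      rw [rep_1, expB_σ]
      simp
      field_simp
      ring
    | b' =>
      refine key (-3) (-1) (Or.inr rfl) fun N hN => ?_
      have h0 := Ar_ne N hN
      unfold Fh
      rw [rep_1', expB_inv, expB_σ]
      simp
      field_simp
      ring
    | ab' =>
      refine key 0 1 (Or.inl rfl) fun N hN => ?_
      have h0 := Ar_ne N hN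
      unfold Fh
      rw [rep_mul, rep_0, rep_1', Matrix.mul_fin_two, expB_mul, expB_inv, expB_σ, expB_σ]
      simp
      field_simp
      ring
    | b'a =>
      refine key 0 1 (Or.inl rfl) fun N hN => ?_
      have h0 := Ar_ne N hN
      unfold Fh
      rw [rep_mul, rep_0, rep_1', Matrix.mul_fin_two, expB_mul, expB_inv, expB_σ, expB_σ]
      simp
      field_simp
      ring
    | a'b =>
      refine key 0 1 (Or.inl rfl) fun N hN => ?_
      have h0 := Ar_ne N hN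
      unfold Fh
      rw [rep_mul, rep_0', rep_1, Matrix.mul_fin_two, expB_mul, expB_inv, expB_σ, expB_σ]
      simp
      field_simp
      ring
    | ba' =>
      refine key 0 1 (Or.inl rfl) fun N hN => ?_
      have h0 := Ar_ne N hN
      unfold Fh
      rw [rep_mul, rep_0', rep_1, Matrix.mul_fin_two, expB_mul, expB_inv, expB_σ, expB_σ]
      simp
      field_simp
      ring

theorem main_loop : IsMono (draw (crossless ![0, 1, 2] ![1, 3, 2] up) w).close.bracket ↔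
    ∃ k s : ℤ, (s = 1 ∨ s = -1) ∧ toB w = σ 0 ^ k * σ 1 ^ s * σ 0 ^ (-k) := by
  constructor
  · intro h
    obtain ⟨h1, n, e, he, h2⟩ := mono_iff (br_loop up w hw) h
    refine sol_loop (n := n) (e := e) ?_ he ?_
    · intro z hz
      have := h1 z hz
      rwa [phi_loop, d_z hz] at this
    · rwa [phi_loop, ← d_two] at h2
  · rintro ⟨k, s, hs, hk⟩
    have hl : ∀ (N : ℕ) (hN : 3 ≤ N), Fl (Ar_ne N hN) (-Ar N ^ 2 - (Ar N)⁻¹ ^ 2) (toB w) = 
        Fl (Ar_ne N hN) (-Ar N ^ 2 - (Ar N)⁻¹ ^ 2) (σ 1 ^ s) := by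
      intro N hN
      have h0 := Ar_ne N hN
      have h3 := Fl_loop h0 (d := -Ar N ^ 2 - (Ar N)⁻¹ ^ 2) rfl 0 k s
      rw [zpow_zero, one_mul, one_mul] at h3
      rw [hk, mul_assoc, h3]
    rcases hs with rfl | rfl
    · refine mono_of (br_loop up w hw) 3 (-1) (Or.inr rfl) ?_
      intro N hN
      have h0 := Ar_ne N hN
      rw [phi_loop, hl N hN, zpow_one]
      have h4 := Ar_d N hN
      rw [h4]
      unfold Fl
      rw [rep_1, expB_σ]
      simp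
      field_simp
      ring
    · refine mono_of (br_loop up w hw) (-3) (-1) (Or.inr rfl) ?_
      intro N hN
      have h0 := Ar_ne N hN
      rw [phi_loop, hl N hN, zpow_neg_one]
      have h4 := Ar_d N hN
      rw [h4]
      unfold Fl
      rw [rep_1', expB_inv, expB_σ]
      simp
      field_simp
      ring

theorem main_cap : IsMono (draw (crossless ![0, 1, 1] ![2, 3, 2] up) w).close.bracket ↔
    ∃ k n : ℤ, toB w = σ 1 ^ k * Δ ^ n := by
  constructor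
  · intro h
    obtain ⟨h1, _⟩ := mono_iff (br_cap up w hw) h
    refine sol_cap ?_
    intro z hz
    have := h1 z hz
    rwa [phi_cap, d_z hz] at this
  · rintro ⟨k, n, hk⟩
    have hpow : ∀ (N : ℕ) (hN : 3 ≤ N) (j : ℤ), (-(Ar N)⁻¹ ^ 3) ^ j = 
        ((if Even j then (1 : ℤ) else -1 : ℤ) : ℂ) * Ar N ^ (-3 * j) := by
      intro N hN j
      have h1 : (Ar N)⁻¹ ^ 3 = Ar N ^ (-3 : ℤ) := by rw [inv_pow, zpow_neg]; norm_cast
      rw [h1, zpow_mul]
      split_ifs with hj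
      · rw [hj.neg_zpow]; simp
      · rw [(Int.not_even_iff_odd.1 hj).neg_zpow]; simp
    rcases Int.even_or_odd' n with ⟨m, rfl | rfl⟩
    · refine mono_of (br_cap up w hw) (-3 * k - 6 * m) (if Even k then 1 else -1) 
        (by split_ifs <;> simp) ?_
      intro N hN
      have h0 := Ar_ne N hN
      have hd : (N : ℂ) = -Ar N ^ 2 - (Ar N)⁻¹ ^ 2 := Ar_d N hN
      have h1 : Fc h0 (-Ar N ^ 2 - (Ar N)⁻¹ ^ 2) 1 = 1 + (-Ar N ^ 2 - (Ar N)⁻¹ ^ 2) := by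
        unfold Fc; rw [rep_one]; simp
      rw [phi_cap, hk, ← c_zpow, Fc_slide_pow h0 rfl, ← mul_one (c ^ m), Fc_c_mul, hpow N hN, h1, ← hd,
        sub_eq_add_neg (-3 * k), zpow_add₀ h0, show -(6 * m) = -6 * m from by ring]
      ring
    · refine mono_of (br_cap up w hw) (-3 * (k + 1) - 6 * m) (if Even (k + 1) then 1 else -1) 
        (by split_ifs <;> simp) ?_
      intro N hN
      have h0 := Ar_ne N hN
      have hd : (N : ℂ) = -Ar N ^ 2 - (Ar N)⁻¹ ^ 2 := Ar_d N hN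
      have h1 : Fc h0 (-Ar N ^ 2 - (Ar N)⁻¹ ^ 2) Δ = 
          (-(Ar N)⁻¹ ^ 3) * (1 + (-Ar N ^ 2 - (Ar N)⁻¹ ^ 2)) := by
        unfold Fc; rw [rep_Δ]; simp; ring
      have h2 : (-(Ar N)⁻¹ ^ 3) ^ k * (-(Ar N)⁻¹ ^ 3) = (-(Ar N)⁻¹ ^ 3) ^ (k + 1) := by
        rw [zpow_add_one₀ (neg_ne_zero.2 (pow_ne_zero _ (inv_ne_zero h0)))]
      have h3 := hpow N hN (k + 1)
      rw [phi_cap, hk, zpow_add, zpow_one, ← c_zpow, Fc_slide_pow h0 rfl, Fc_c_mul, h1, ← hd,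
        sub_eq_add_neg (-3 * (k + 1)), zpow_add₀ h0, show -(6 * m) = -6 * m from by ring]
      have h4 : (-(Ar N)⁻¹ ^ 3) ^ k * (Ar N ^ (-6 * m) * (-(Ar N)⁻¹ ^ 3 * (1 + (N : ℂ)))) = 
          ((-(Ar N)⁻¹ ^ 3) ^ k * (-(Ar N)⁻¹ ^ 3)) * (Ar N ^ (-6 * m) * (1 + (N : ℂ))) := by ring
      rw [h4, h2, h3]
      ring

theorem main_turn : IsMono (draw (crossless ![0, 1, 2] ![3, 3, 1] up) w).close.bracket ↔
    ∃ k n : ℤ, toB w = Δ ^ n * σ 0 ^ k := by
  constructor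
  · intro h
    obtain ⟨h1, _⟩ := mono_iff (br_turn up w hw) h
    refine sol_turn ?_
    intro z hz
    have := h1 z hz
    rwa [phi_turn, d_z hz] at this
  · rintro ⟨k, n, hk⟩
    have hpow : ∀ (N : ℕ) (hN : 3 ≤ N) (j : ℤ), (-(Ar N)⁻¹ ^ 3) ^ j = 
        ((if Even j then (1 : ℤ) else -1 : ℤ) : ℂ) * Ar N ^ (-3 * j) := by
      intro N hN j
      have h1 : (Ar N)⁻¹ ^ 3 = Ar N ^ (-3 : ℤ) := by rw [inv_pow, zpow_neg]; norm_cast
      rw [h1, zpow_mul]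
      split_ifs with hj
      · rw [hj.neg_zpow]; simp
      · rw [(Int.not_even_iff_odd.1 hj).neg_zpow]; simp
    rcases Int.even_or_odd' n with ⟨m, rfl | rfl⟩
    · refine mono_of (br_turn up w hw) (-3 * k - 6 * m) (if Even k then 1 else -1) 
        (by split_ifs <;> simp) ?_
      intro N hN
      have h0 := Ar_ne N hN
      have hd : (N : ℂ) = -Ar N ^ 2 - (Ar N)⁻¹ ^ 2 := Ar_d N hN
      have h1 : Ft h0 (-Ar N ^ 2 - (Ar N)⁻¹ ^ 2) 1 = 1 + (-Ar N ^ 2 - (Ar N)⁻¹ ^ 2) := by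
        unfold Ft; rw [rep_one]; simp; ring
      rw [phi_turn, hk, ← c_zpow, Ft_slide_pow h0, ← mul_one (c ^ m), Ft_c_mul, hpow N hN, h1, ← hd,
        sub_eq_add_neg (-3 * k), zpow_add₀ h0, show -(6 * m) = -6 * m from by ring]
      ring
    · refine mono_of (br_turn up w hw) (-3 * (k + 1) - 6 * m) (if Even (k + 1) then 1 else -1) 
        (by split_ifs <;> simp) ?_
      intro N hN
      have h0 := Ar_ne N hN
      have hd : (N : ℂ) = -Ar N ^ 2 - (Ar N)⁻¹ ^ 2 := Ar_d N hN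
      have h1 : Ft h0 (-Ar N ^ 2 - (Ar N)⁻¹ ^ 2) Δ = 
          (-(Ar N)⁻¹ ^ 3) * (1 + (-Ar N ^ 2 - (Ar N)⁻¹ ^ 2)) := by
        unfold Ft; rw [rep_Δ]; simp; ring
      have h2 : (-(Ar N)⁻¹ ^ 3) ^ k * (-(Ar N)⁻¹ ^ 3) = (-(Ar N)⁻¹ ^ 3) ^ (k + 1) := by
        rw [zpow_add_one₀ (neg_ne_zero.2 (pow_ne_zero _ (inv_ne_zero h0)))]
      have h3 := hpow N hN (k + 1)
      rw [phi_turn, hk, zpow_add, zpow_one, ← c_zpow, Ft_slide_pow h0, Ft_c_mul, h1, ← hd,
        sub_eq_add_neg (-3 * (k + 1)), zpow_add₀ h0, show -(6 * m) = -6 * m from by ring]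
      have h4 : (-(Ar N)⁻¹ ^ 3) ^ k * (Ar N ^ (-6 * m) * (-(Ar N)⁻¹ ^ 3 * (1 + (N : ℂ)))) = 
          ((-(Ar N)⁻¹ ^ 3) ^ k * (-(Ar N)⁻¹ ^ 3)) * (Ar N ^ (-6 * m) * (1 + (N : ℂ))) := by ring
      rw [h4, h2, h3]
      ring

end main

end Pool.Agent.KS6_91.TB
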