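import Pool.Graph.R_seed8.Y463.SK.Bridge

/-!
# The bracket of a `3`-braid word in a box with a crossingless outside
-/

set_option autoImplicit false

namespace Pool.Agent.KS6_91.TB

open Finset LaurentPolynomial Pool.Agent.H891R2.Jones Pool.Agent.W639.RB

/-- the outside of a box with three strands, without crossings, described by four marked points -/
def crossless (l u : Fin 3 → Fin 4) (up : Fin 3 → Bool) : Outer 3 where
  P := Fin 4
  arcs := []
  crossings := []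
  lower := l
  upper := u
  up := up

/-- the matrix of a letter -/
def LM {K : Type*} [CommRing K] (A A' : K) (x : Bool × ℕ) : Matrix (Fin 2) (Fin 2) K :=
  if x.2 = 0 then (if x.1 then !![-A' ^ 3, A'; 0, A] else !![-A ^ 3, A; 0, A'])
  else (if x.1 then !![A, 0; A', -A' ^ 3] else !![A', 0; A, -A ^ 3])

/-- the matrix of a word -/
def RK {K : Type*} [CommRing K] (A A' : K) (w : List (Bool × ℕ)) : Matrix (Fin 2) (Fin 2) K :=
  (w.map (LM A A')).prod

theorem RK_cons {K : Type*} [CommRing K] (A A' : K) (x : Bool × ℕ) (w : List (Bool × ℕ)) :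
    RK A A' (x :: w) = LM A A' x * RK A A' w := by simp [RK]

theorem LM_map {K K' : Type*} [CommRing K] [CommRing K'] (φ : K →+* K') (A A' : K) (x : Bool × ℕ) :
    (LM A A' x).map φ = LM (φ A) (φ A') x := by
  unfold LM
  split_ifs <;> (ext i j; fin_cases i <;> fin_cases j <;> simp)

theorem RK_map {K K' : Type*} [CommRing K] [CommRing K'] (φ : K →+* K') (A A' : K)
    (w : List (Bool × ℕ)) : (RK A A' w).map φ = RK (φ A) (φ A') w := by
  induction w with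
  | nil => simp [RK]
  | cons x w ih => rw [RK_cons, RK_cons, Matrix.map_mul, ih, LM_map]

/-- a Temperley–Lieb element with its image -/
structure Dec {R : Type*} [Ring R] [Algebra ℂ R] (A d : ℂ) (e : ℕ → R) (n : ℤ) (x : R)
    (M : Matrix (Fin 2) (Fin 2) ℂ) (c1 c2 c3 c4 : ℂ) : Prop where
  el : x = A ^ n • (1 : R) + c1 • e 0 + c2 • e 1 + c3 • (e 0 * e 1) + c4 • (e 1 * e 0)
  m00 : M 0 0 = A ^ n + d * c1 + c3
  m01 : M 0 1 = c1 + d * c3
  m10 : M 1 0 = c2 + d * c4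
  m11 : M 1 1 = A ^ n + d * c2 + c4

theorem dec_rho {A : ℂ} (hA : A ≠ 0) {N : ℕ} (hN : (N : ℂ) = -A ^ 2 - A⁻¹ ^ 2)
    (w : List (Bool × ℕ)) (hw : ∀ x ∈ w, x.2 + 1 < 3) :
    ∃ c1 c2 c3 c4 : ℂ, Dec A (N : ℂ) (ee 3 N ((Fin 3 → Fin N) → ℂ)) (expo w) (rho A 3 N w)
      (RK A A⁻¹ w) c1 c2 c3 c4 := by
  have hT := isTL_ee (W := (Fin 3 → Fin N) → ℂ) 3 N
  set e := ee 3 N ((Fin 3 → Fin N) → ℂ) with he
  have s0 : e 0 * e 0 = (N : ℂ) • e 0 := hT.sq 0 (by norm_num)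
  have s1 : e 1 * e 1 = (N : ℂ) • e 1 := hT.sq 1 (by norm_num)
  have u0 : e 0 * (e 1 * e 0) = e 0 := by rw [← mul_assoc]; exact hT.up 0 (by norm_num)
  have d0 : e 1 * (e 0 * e 1) = e 1 := by rw [← mul_assoc]; exact hT.down 0 (by norm_num)
  have s0' : ∀ y, e 0 * (e 0 * y) = (N : ℂ) • (e 0 * y) := by
    intro y; rw [← mul_assoc, s0, smul_mul_assoc]
  have s1' : ∀ y, e 1 * (e 1 * y) = (N : ℂ) • (e 1 * y) := by
    intro y; rw [← mul_assoc, s1, smul_mul_assoc]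
  induction w with
  | nil =>
    refine ⟨0, 0, 0, 0, ?_, ?_, ?_, ?_, ?_⟩ <;> simp [rho, RK, expo]
  | cons x w ih =>
    obtain ⟨c1, c2, c3, c4, hel, h00, h01, h10, h11⟩ :=
      ih (fun y hy => hw y (List.mem_cons_of_mem _ hy))
    have hx := hw x List.mem_cons_self
    have hr : rho A 3 N (x :: w) = lt A 3 N x * rho A 3 N w := by simp [rho]
    have hex : expo (x :: w) = (if x.1 then (1 : ℤ) else -1) + expo w := by simp [expo]
    obtain ⟨b, i⟩ := x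
    have hi : i = 0 ∨ i = 1 := by simp only at hx; omega
    have hA' : A ^ (-1 : ℤ) = A⁻¹ := zpow_neg_one A
    have hAA : A * A⁻¹ = 1 := mul_inv_cancel₀ hA
    have e3 : -A⁻¹ ^ 3 = A + A⁻¹ * (N : ℂ) := by rw [hN]; linear_combination (A + A) * hAA - A * hAA
    have e3' : -A ^ 3 = A⁻¹ + A * (N : ℂ) := by rw [hN]; linear_combination (A⁻¹ + A⁻¹) * hAA - A⁻¹ * hAA
    rw [hr, RK_cons, hex, Matrix.eta_fin_two (RK A A⁻¹ w), h00, h01, h10, h11]
    rcases hi with rfl | rfl <;> cases b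
    · refine ⟨A⁻¹ * c1 + A * (A ^ expo w + N * c1 + c4), A⁻¹ * c2, A⁻¹ * c3 + A * (c2 + N * c3),
        A⁻¹ * c4, ?_, ?_, ?_, ?_, ?_⟩
      · rw [hel, zpow_add₀ hA]
        simp only [lt, Bool.false_eq_true, if_false, sg, inv_inv, ← he, hA', add_mul, mul_add,
          smul_mul_assoc, mul_smul_comm, one_mul, mul_one, s0, u0, s0', smul_smul]
        module
      all_goals
        simp only [LM, Bool.false_eq_true, if_false, if_true, Matrix.mul_fin_two, Matrix.of_apply,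
          Matrix.cons_val', Matrix.cons_val_zero, Matrix.cons_val_one, Matrix.cons_val_fin_one, e3', 
          zpow_add₀ hA, hA']
        ring
    · refine ⟨A * c1 + A⁻¹ * (A ^ expo w + N * c1 + c4), A * c2, A * c3 + A⁻¹ * (c2 + N * c3),
        A * c4, ?_, ?_, ?_, ?_, ?_⟩
      · rw [hel, zpow_add₀ hA]
        simp only [lt, if_true, sg, ← he, zpow_one, add_mul, mul_add,
          smul_mul_assoc, mul_smul_comm, one_mul, mul_one, s0, u0, s0', smul_smul]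
        module
      all_goals
        simp only [LM, if_true, Matrix.mul_fin_two, Matrix.of_apply,
          Matrix.cons_val', Matrix.cons_val_zero, Matrix.cons_val_one, Matrix.cons_val_fin_one, e3, 
          zpow_add₀ hA, zpow_one]
        ring
    · refine ⟨A⁻¹ * c1, A⁻¹ * c2 + A * (A ^ expo w + N * c2 + c3), A⁻¹ * c3,
        A⁻¹ * c4 + A * (c1 + N * c4), ?_, ?_, ?_, ?_, ?_⟩
      · rw [hel, zpow_add₀ hA]
        simp only [lt, Bool.false_eq_true, if_false, sg, inv_inv, ← he, hA', add_mul, mul_add,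
          smul_mul_assoc, mul_smul_comm, one_mul, mul_one, s1, d0, s1', smul_smul]
        module
      all_goals
        simp only [LM, Bool.false_eq_true, if_false, if_true, Matrix.mul_fin_two, Matrix.of_apply,
          Matrix.cons_val', Matrix.cons_val_zero, Matrix.cons_val_one, Matrix.cons_val_fin_one, e3', 
          zpow_add₀ hA, hA', one_ne_zero]
        ring
    · refine ⟨A * c1, A * c2 + A⁻¹ * (A ^ expo w + N * c2 + c3), A * c3,
        A * c4 + A⁻¹ * (c1 + N * c4), ?_, ?_, ?_, ?_, ?_⟩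
      · rw [hel, zpow_add₀ hA]
        simp only [lt, if_true, sg, ← he, zpow_one, add_mul, mul_add,
          smul_mul_assoc, mul_smul_comm, one_mul, mul_one, s1, d0, s1', smul_smul]
        module
      all_goals
        simp only [LM, if_true, if_false, Matrix.mul_fin_two, Matrix.of_apply,
          Matrix.cons_val', Matrix.cons_val_zero, Matrix.cons_val_one, Matrix.cons_val_fin_one, e3, 
          zpow_add₀ hA, zpow_one, one_ne_zero]
        ring

/-! ### the closures of the five basis elements -/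

theorem sum_fin4 {N : ℕ} (f : (Fin 4 → Fin N) → ℂ) :
    ∑ col : Fin 4 → Fin N, f col = ∑ a, ∑ b, ∑ c, ∑ d, f ![a, b, c, d] := by
  rw [← (Fin.consEquiv (fun _ => Fin N)).sum_comp, Fintype.sum_prod_type]
  refine Finset.sum_congr rfl fun a _ => ?_
  rw [← (Fin.consEquiv (fun _ => Fin N)).sum_comp, Fintype.sum_prod_type]
  refine Finset.sum_congr rfl fun b _ => ?_
  rw [← (Fin.consEquiv (fun _ => Fin N)).sum_comp, Fintype.sum_prod_type]
  refine Finset.sum_congr rfl fun c _ => ?_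
  rw [← (Fin.consEquiv (fun _ => Fin N)).sum_comp, Fintype.sum_prod_type]
  refine Finset.sum_congr rfl fun d _ => ?_
  rw [Fintype.sum_unique]
  rfl

/-- the kernel of the identity -/
noncomputable def idk (N : ℕ) : (Fin 3 → Fin N) → ((Fin 3 → Fin N) → ℂ) := fun x y => ind (x = y)

theorem fin3_ext {N : ℕ} (x y : Fin 3 → Fin N) : x = y ↔ (x 0 = y 0 ∧ x 1 = y 1 ∧ x 2 = y 2) := by
  constructor
  · rintro rfl; exact ⟨rfl, rfl, rfl⟩
  · rintro ⟨h0, h1, h2⟩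
    funext i
    fin_cases i
    · exact h0
    · exact h1
    · exact h2

theorem ind_eq_ite (p : Prop) [Decidable p] : ind p = if p then 1 else 0 := by
  by_cases h : p
  · rw [ind_pos h, if_pos h]
  · rw [ind_neg h, if_neg h]

theorem ee0_apply {N : ℕ} (g : (Fin 3 → Fin N) → ((Fin 3 → Fin N) → ℂ)) (x y : Fin 3 → Fin N) :
    ee 3 N ((Fin 3 → Fin N) → ℂ) 0 g x y = if x 0 = x 1 then ∑ c, g ![c, c, x 2] y else 0 := by
  unfold ee
  rw [dif_pos (by norm_num), EE_apply]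
  have h : ∀ c, upd x (⟨0, by norm_num⟩ : Fin 3) ⟨0+1, by norm_num⟩ c = ![c, c, x 2] := by
    intro c; funext j; fin_cases j <;> simp [upd]
  simp only [h]
  have h2 : (x ⟨0, by norm_num⟩ = x ⟨0+1, by norm_num⟩) = (x 0 = x 1) := rfl
  split_ifs with h3 h4 h4
  · exact Finset.sum_apply _ _ _
  · exact absurd h3 h4
  · exact absurd h4 h3
  · rfl

theorem ee1_apply {N : ℕ} (g : (Fin 3 → Fin N) → ((Fin 3 → Fin N) → ℂ)) (x y : Fin 3 → Fin N) :
    ee 3 N ((Fin 3 → Fin N) → ℂ) 1 g x y = if x 1 = x 2 then ∑ c, g ![x 0, c, c] y else 0 := by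
  unfold ee
  rw [dif_pos (by norm_num), EE_apply]
  have h : ∀ c, upd x (⟨1, by norm_num⟩ : Fin 3) ⟨1+1, by norm_num⟩ c = ![x 0, c, c] := by
    intro c; funext j; fin_cases j <;> simp [upd]
  simp only [h]
  split_ifs with h3 h4 h4
  · exact Finset.sum_apply _ _ _
  · exact absurd h3 h4
  · exact absurd h4 h3
  · rfl

theorem Zg_crossless {A : ℂ} {N : ℕ} (l u : Fin 3 → Fin 4) (up : Fin 3 → Bool)
    (g : (Fin 3 → Fin N) → ((Fin 3 → Fin N) → ℂ)) :
    Zg A N (crossless l u up) g =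
      ∑ a, ∑ b, ∑ c, ∑ d, g (![a, b, c, d] ∘ l) (![a, b, c, d] ∘ u) := by
  unfold Zg
  have h : ∀ col : Fin 4 → Fin N, WW A (crossless l u up).arcs (crossless l u up).crossings col = 1 := by
    intro col; simp [WW, crossless]
  show ∑ col : Fin 4 → Fin N, WW A (crossless l u up).arcs (crossless l u up).crossings col *
    g (col ∘ l) (col ∘ u) = _
  simp only [h, one_mul]
  exact sum_fin4 (fun col => g (col ∘ l) (col ∘ u))

/-- the five values of an outside -/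
structure Vals (l u : Fin 3 → Fin 4) (v : Fin 5 → ℕ → ℕ) : Prop where
  v0 : ∀ N : ℕ, ∑ a, ∑ b, ∑ c, ∑ d, idk N (![a, b, c, d] ∘ l) (![a, b, c, d] ∘ u) = (v 0 N : ℂ)
  v1 : ∀ N : ℕ, ∑ a, ∑ b, ∑ c, ∑ d, ee 3 N ((Fin 3 → Fin N) → ℂ) 0 (idk N)
    (![a, b, c, d] ∘ l) (![a, b, c, d] ∘ u) = (v 1 N : ℂ)
  v2 : ∀ N : ℕ, ∑ a, ∑ b, ∑ c, ∑ d, ee 3 N ((Fin 3 → Fin N) → ℂ) 1 (idk N)
    (![a, b, c, d] ∘ l) (![a, b, c, d] ∘ u) = (v 2 N : ℂ)
  v3 : ∀ N : ℕ, ∑ a, ∑ b, ∑ c, ∑ d, ee 3 N ((Fin 3 → Fin N) → ℂ) 0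
    (ee 3 N ((Fin 3 → Fin N) → ℂ) 1 (idk N)) (![a, b, c, d] ∘ l) (![a, b, c, d] ∘ u) = (v 3 N : ℂ)
  v4 : ∀ N : ℕ, ∑ a, ∑ b, ∑ c, ∑ d, ee 3 N ((Fin 3 → Fin N) → ℂ) 1
    (ee 3 N ((Fin 3 → Fin N) → ℂ) 0 (idk N)) (![a, b, c, d] ∘ l) (![a, b, c, d] ∘ u) = (v 4 N : ℂ)

theorem vals_spiral : Vals ![0, 1, 2] ![1, 2, 3] ![id, id, id, id, fun N => N ^ 2] where
  v0 N := by simp [idk, fin3_ext, ind_eq_ite, ite_and]
  v1 N := by simp [ee0_apply, idk, fin3_ext, ind_eq_ite, ite_and]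
  v2 N := by simp [ee1_apply, idk, fin3_ext, ind_eq_ite, ite_and]
  v3 N := by simp [ee0_apply, ee1_apply, idk, fin3_ext, ind_eq_ite, ite_and]
  v4 N := by simp [ee0_apply, ee1_apply, idk, fin3_ext, ind_eq_ite, ite_and, sq]

theorem vals_hooks : Vals ![0, 1, 0] ![2, 3, 2] ![fun N => N ^ 2, id, id, id, id] where
  v0 N := by simp [idk, fin3_ext, ind_eq_ite, ite_and, sq]
  v1 N := by simp [ee0_apply, idk, fin3_ext, ind_eq_ite, ite_and]
  v2 N := by simp [ee1_apply, idk, fin3_ext, ind_eq_ite, ite_and]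
  v3 N := by simp [ee0_apply, ee1_apply, idk, fin3_ext, ind_eq_ite, ite_and]
  v4 N := by simp [ee0_apply, ee1_apply, idk, fin3_ext, ind_eq_ite, ite_and, sq]

theorem vals_loop : Vals ![0, 1, 2] ![1, 3, 2] ![fun N => N ^ 2, fun N => N ^ 2, id, id, id] where
  v0 N := by simp [idk, fin3_ext, ind_eq_ite, ite_and, sq]
  v1 N := by simp [ee0_apply, idk, fin3_ext, ind_eq_ite, ite_and, sq]
  v2 N := by simp [ee1_apply, idk, fin3_ext, ind_eq_ite, ite_and]
  v3 N := by simp [ee0_apply, ee1_apply, idk, fin3_ext, ind_eq_ite, ite_and]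
  v4 N := by simp [ee0_apply, ee1_apply, idk, fin3_ext, ind_eq_ite, ite_and, sq]

theorem vals_cap : Vals ![0, 1, 1] ![2, 3, 2] ![id, id, fun N => N ^ 2, id, fun N => N ^ 2] where
  v0 N := by simp [idk, fin3_ext, ind_eq_ite, ite_and, sq]
  v1 N := by simp [ee0_apply, idk, fin3_ext, ind_eq_ite, ite_and, sq]
  v2 N := by simp [ee1_apply, idk, fin3_ext, ind_eq_ite, ite_and, sq]
  v3 N := by simp [ee0_apply, ee1_apply, idk, fin3_ext, ind_eq_ite, ite_and]
  v4 N := by simp [ee0_apply, ee1_apply, idk, fin3_ext, ind_eq_ite, ite_and, sq]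

theorem vals_turn : Vals ![0, 1, 2] ![3, 3, 1] ![id, fun N => N ^ 2, id, id, fun N => N ^ 2] where
  v0 N := by simp [idk, fin3_ext, ind_eq_ite, ite_and]
  v1 N := by simp [ee0_apply, idk, fin3_ext, ind_eq_ite, ite_and, sq]
  v2 N := by simp [ee1_apply, idk, fin3_ext, ind_eq_ite, ite_and]
  v3 N := by simp [ee0_apply, ee1_apply, idk, fin3_ext, ind_eq_ite, ite_and]
  v4 N := by simp [ee0_apply, ee1_apply, idk, fin3_ext, ind_eq_ite, ite_and, sq]

/-! ### the bracket -/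

/-- the bracket at a special value of `A` -/
theorem ev_br {l u : Fin 3 → Fin 4} {v : Fin 5 → ℕ → ℕ} (hv : Vals l u v) (up : Fin 3 → Bool)
    (w : List (Bool × ℕ)) (hw : ∀ x ∈ w, x.2 + 1 < 3) (N : ℕ) (hN : 3 ≤ N) :
    ∃ c1 c2 c3 c4 : ℂ,
      (N : ℂ) * ev N hN (draw (crossless l u up) w).close.bracket =
        Ar N ^ expo w * v 0 N + c1 * v 1 N + c2 * v 2 N + c3 * v 3 N + c4 * v 4 N ∧
      RK (Ar N) (Ar N)⁻¹ w 0 0 = Ar N ^ expo w + N * c1 + c3 ∧
      RK (Ar N) (Ar N)⁻¹ w 0 1 = c1 + N * c3 ∧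
      RK (Ar N) (Ar N)⁻¹ w 1 0 = c2 + N * c4 ∧
      RK (Ar N) (Ar N)⁻¹ w 1 1 = Ar N ^ expo w + N * c2 + c4 := by
  obtain ⟨c1, c2, c3, c4, hel, h00, h01, h10, h11⟩ := dec_rho (Ar_ne N hN) (Ar_d N hN) w hw
  refine ⟨c1, c2, c3, c4, ?_, h00, h01, h10, h11⟩
  have : Nonempty (draw (crossless l u up) w).P := ⟨(draw (crossless l u up) w).lower 0⟩
  have h1 := ev_bracket N hN (draw (crossless l u up) w).close
  rw [Z_close, Zg_draw w _ hw, hel] at h1
  have h2 : (Ar N ^ expo w • (1 : Module.End ℂ ((Fin 3 → Fin N) → ((Fin 3 → Fin N) → ℂ)))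
      + c1 • ee 3 N ((Fin 3 → Fin N) → ℂ) 0 + c2 • ee 3 N ((Fin 3 → Fin N) → ℂ) 1
      + c3 • (ee 3 N ((Fin 3 → Fin N) → ℂ) 0 * ee 3 N ((Fin 3 → Fin N) → ℂ) 1)
      + c4 • (ee 3 N ((Fin 3 → Fin N) → ℂ) 1 * ee 3 N ((Fin 3 → Fin N) → ℂ) 0))
        (fun x y => ind (x = y)) =
      Ar N ^ expo w • idk N + c1 • ee 3 N ((Fin 3 → Fin N) → ℂ) 0 (idk N)
      + c2 • ee 3 N ((Fin 3 → Fin N) → ℂ) 1 (idk N)
      + c3 • ee 3 N ((Fin 3 → Fin N) → ℂ) 0 (ee 3 N ((Fin 3 → Fin N) → ℂ) 1 (idk N))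
      + c4 • ee 3 N ((Fin 3 → Fin N) → ℂ) 1 (ee 3 N ((Fin 3 → Fin N) → ℂ) 0 (idk N)) := rfl
  rw [h2, Pool.Agent.Y463.SK.Zg_add, Pool.Agent.Y463.SK.Zg_add, Pool.Agent.Y463.SK.Zg_add,
    Pool.Agent.Y463.SK.Zg_add, Pool.Agent.Y463.SK.Zg_smul, Pool.Agent.Y463.SK.Zg_smul,
    Pool.Agent.Y463.SK.Zg_smul, Pool.Agent.Y463.SK.Zg_smul, Pool.Agent.Y463.SK.Zg_smul,
    Zg_crossless, Zg_crossless, Zg_crossless, Zg_crossless, Zg_crossless, hv.v0, hv.v1, hv.v2,
    hv.v3, hv.v4] at h1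
  exact h1

/-- the loop value -/
noncomputable def dlt : ℤ[T;T⁻¹] := -T 2 - T (-2)

/-- the matrix of a word over the Laurent polynomials -/
noncomputable def RL (w : List (Bool × ℕ)) : Matrix (Fin 2) (Fin 2) ℤ[T;T⁻¹] := RK (T 1) (T (-1)) w

theorem ev_dlt (N : ℕ) (hN : 3 ≤ N) : ev N hN dlt = N := by
  unfold dlt
  rw [map_sub, map_neg, ev_T, ev_T, Ar_d N hN, zpow_neg, inv_pow]
  norm_cast

theorem ev_RL (N : ℕ) (hN : 3 ≤ N) (w : List (Bool × ℕ)) (i j : Fin 2) :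
    ev N hN (RL w i j) = RK (Ar N) (Ar N)⁻¹ w i j := by
  have h := congrFun (congrFun (RK_map (ev N hN) (T 1) (T (-1)) w) i) j
  rw [Matrix.map_apply, ev_T, ev_T, zpow_one, zpow_neg_one] at h
  exact h

theorem eq_of_ev (f g : ℤ[T;T⁻¹]) (h : ∀ (N : ℕ) (hN : 3 ≤ N), (N : ℂ) * ev N hN f = (N : ℂ) * ev N hN g) : f = g := by
  rw [← sub_eq_zero]
  apply Pool.Agent.Y463.SK.eq_zero_of_ev
  intro N hN
  have h0 : (N : ℂ) ≠ 0 := by
    have : N ≠ 0 := by omega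
    exact_mod_cast this
  rw [map_sub, sub_eq_zero]
  exact mul_left_cancel₀ h0 (h N hN)

theorem br_spiral (up : Fin 3 → Bool) (w : List (Bool × ℕ)) (hw : ∀ x ∈ w, x.2 + 1 < 3) :
    (dlt + 1) * (draw (crossless ![0, 1, 2] ![1, 2, 3] up) w).close.bracket =
      dlt * T (expo w) + RL w 0 0 + RL w 0 1 + (dlt + 1) * RL w 1 0 := by
  apply eq_of_ev
  intro N hN
  obtain ⟨c1, c2, c3, c4, h, h00, h01, h10, h11⟩ := ev_br vals_spiral up w hw N hN
  simp only [map_mul, map_add, map_one, ev_dlt, ev_T, ev_RL, h00, h01, h10]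
  simp at h
  linear_combination (N + 1 : ℂ) * h

theorem br_hooks (up : Fin 3 → Bool) (w : List (Bool × ℕ)) (hw : ∀ x ∈ w, x.2 + 1 < 3) :
    (dlt + 1) * (draw (crossless ![0, 1, 0] ![2, 3, 2] up) w).close.bracket =
      (dlt + 2) * (dlt - 1) * T (expo w) + RL w 0 0 + RL w 0 1 + RL w 1 0 + RL w 1 1 := by
  apply eq_of_ev
  intro N hN
  obtain ⟨c1, c2, c3, c4, h, h00, h01, h10, h11⟩ := ev_br vals_hooks up w hw N hN
  simp only [map_mul, map_add, map_sub, map_one, map_ofNat, ev_dlt, ev_T, ev_RL, h00, h01, h10, h11]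
  simp at h
  linear_combination (N + 1 : ℂ) * h

theorem br_loop (up : Fin 3 → Bool) (w : List (Bool × ℕ)) (hw : ∀ x ∈ w, x.2 + 1 < 3) :
    (dlt + 1) * (draw (crossless ![0, 1, 2] ![1, 3, 2] up) w).close.bracket =
      (dlt ^ 2 - 2) * T (expo w) + (dlt + 1) * RL w 0 0 + RL w 1 0 + RL w 1 1 := by
  apply eq_of_ev
  intro N hN
  obtain ⟨c1, c2, c3, c4, h, h00, h01, h10, h11⟩ := ev_br vals_loop up w hw N hN
  simp only [map_mul, map_add, map_sub, map_pow, map_one, map_ofNat, ev_dlt, ev_T, ev_RL, h00, h01, h10, h11]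
  simp at h
  linear_combination (N + 1 : ℂ) * h

theorem br_cap (up : Fin 3 → Bool) (w : List (Bool × ℕ)) (hw : ∀ x ∈ w, x.2 + 1 < 3) :
    (dlt + 1) * (draw (crossless ![0, 1, 1] ![2, 3, 2] up) w).close.bracket =
      RL w 0 0 + RL w 0 1 + dlt * (RL w 1 0 + RL w 1 1) := by
  apply eq_of_ev
  intro N hN
  obtain ⟨c1, c2, c3, c4, h, h00, h01, h10, h11⟩ := ev_br vals_cap up w hw N hN
  simp only [map_mul, map_add, map_one, ev_dlt, ev_RL, h00, h01, h10, h11]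
  simp at h
  linear_combination (N + 1 : ℂ) * h

theorem br_turn (up : Fin 3 → Bool) (w : List (Bool × ℕ)) (hw : ∀ x ∈ w, x.2 + 1 < 3) :
    (dlt + 1) * (draw (crossless ![0, 1, 2] ![3, 3, 1] up) w).close.bracket =
      (dlt + 1) * (RL w 0 0 + RL w 1 0) := by
  apply eq_of_ev
  intro N hN
  obtain ⟨c1, c2, c3, c4, h, h00, h01, h10, h11⟩ := ev_br vals_turn up w hw N hN
  simp only [map_mul, map_add, map_one, ev_dlt, ev_RL, h00, h10]
  simp at h
  linear_combination (N + 1 : ℂ) * h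

end Pool.Agent.KS6_91.TB
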