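import Pool.Agent.KS6_91.TB.Final

/-!
# Knotoid diagrams with all crossings in a box through which three strands run
-/

set_option autoImplicit false

namespace Pool.Agent.KS6_91.TB

open LaurentPolynomial Pool.Agent.H891R2.Jones Pool.Agent.W639.RB Pool.Agent.Y463.SK

/-- The spiral: the upper ends of the strands `0`, `1` of the box are joined to the lower ends of the
strands `1`, `2` (by two nested arcs around the box); the lower end of the strand `0` is the tail and
the upper end of the strand `2` is the head. -/
def spiral (up : Fin 3 → Bool) : Outer 3 := crossless ![0, 1, 2] ![1, 2, 3] up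

/-- Two hooks: the lower end of the strand `1` is the tail and the other two lower ends are joined by an
arc around the tail; the upper end of the strand `1` is the head and the other two upper ends are joined
by an arc around the head. -/
def hooks (up : Fin 3 → Bool) : Outer 3 := crossless ![0, 1, 0] ![2, 3, 2] up

/-- Two loops: the lower end of the strand `0` is the tail, the upper end of the strand `1` is the head,
the lower end of the strand `1` is joined to the upper end of the strand `0` (around the tail) and the
two ends of the strand `2` are joined. -/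
def loops (up : Fin 3 → Bool) : Outer 3 := crossless ![0, 1, 2] ![1, 3, 2] up

/-- Cap and hook: the lower end of the strand `0` is the tail and the other two lower ends are joined;
the upper end of the strand `1` is the head and the other two upper ends are joined by an arc around
the head. -/
def capHook (up : Fin 3 → Bool) : Outer 3 := crossless ![0, 1, 1] ![2, 3, 2] up

/-- Cap and turn: the lower ends of the strands `0` and `2` are the tail and the head, the lower end of
the strand `1` is joined to the upper end of the strand `2` (around the head), the other two upper ends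
are joined. -/
def capTurn (up : Fin 3 → Bool) : Outer 3 := crossless ![0, 1, 2] ![3, 3, 1] up

/-- the element of the braid group of a braid word -/
def braid (w : List (Letter 3)) : B3 :=
  (w.map (fun x => if x.1 then σ x.2 else (σ x.2)⁻¹)).prod

/-- A slide: a crossing `σ₂^{±1}` at the lower side of the box of the spiral slides along the two arcs
around the box and becomes a crossing `σ₁^{±1}` at the upper side. -/
inductive Slide : B3 → B3 → Prop
  | mk (g : B3) : Slide (σ 1 * g) (g * σ 0)

theorem toB_braid (w : List (Letter 3)) :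
    toB (w.map (fun x => (x.1, (x.2 : ℕ)))) = braid w := by
  unfold toB braid
  rw [List.map_map]
  congr 1
  apply List.map_congr_left
  rintro ⟨b, i⟩ _
  show lB (b, (i : ℕ)) = if b then σ i else (σ i)⁻¹
  have hi : i = (0 : Fin 2) ∨ i = (1 : Fin 2) := by
    rcases i with ⟨i, hi⟩
    have : i = 0 ∨ i = 1 := by omega
    rcases this with rfl | rfl
    · left; rfl
    · right; rfl
  unfold lB
  rcases hi with h | h <;> subst h <;> cases b <;> simp

theorem letters_lt (w : List (Letter 3)) :
    ∀ x ∈ w.map (fun x => (x.1, (x.2 : ℕ))), x.2 + 1 < 3 := by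
  intro x hx
  obtain ⟨y, _, rfl⟩ := List.mem_map.1 hx
  have := y.2.2
  simp only
  omega

theorem slide_iff (g : B3) : Relation.EqvGen Slide g 1 ↔ ∃ k : ℤ, g = σ 1 ^ k * σ 0 ^ (-k) := by
  constructor
  · have key : ∀ x y : B3, Relation.EqvGen Slide x y → 
        ((∃ k : ℤ, x = σ 1 ^ k * σ 0 ^ (-k)) ↔ (∃ k : ℤ, y = σ 1 ^ k * σ 0 ^ (-k))) := by
      intro x y h
      induction h with
      | rel x y h =>
        obtain ⟨g⟩ := h
        constructor
        · rintro ⟨k, hk⟩
          refine ⟨k - 1, ?_⟩
          have : g = (σ 1)⁻¹ * (σ 1 ^ k * σ 0 ^ (-k)) := by rw [← hk, inv_mul_cancel_left]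
          rw [this, ← mul_assoc, ← zpow_neg_one, ← zpow_add, mul_assoc, ← zpow_add_one]
          congr 2 <;> ring
        · rintro ⟨k, hk⟩
          refine ⟨k + 1, ?_⟩
          have : g = σ 1 ^ k * σ 0 ^ (-k) * (σ 0)⁻¹ := by rw [← hk, mul_inv_cancel_right]
          rw [this, mul_assoc, ← zpow_neg_one (σ 0), ← zpow_add, ← mul_assoc, ← zpow_one_add]
          congr 2 <;> ring
      | refl x => rfl
      | symm x y _ ih => exact ih.symm
      | trans x y z _ _ ih1 ih2 => exact ih1.trans ih2
    intro h
    exact (key g 1 h).2 ⟨0, by simp⟩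
  · rintro ⟨k, rfl⟩
    induction k with
    | zero => simpa using Relation.EqvGen.refl 1
    | succ n ih =>
      refine Relation.EqvGen.trans _ _ _ ?_ ih
      have h1 : σ 1 ^ ((n : ℤ) + 1) * σ 0 ^ (-((n : ℤ) + 1)) = 
          σ 1 * (σ 1 ^ (n : ℤ) * σ 0 ^ (-((n : ℤ) + 1))) := by
        rw [← mul_assoc, ← zpow_one_add, add_comm 1]
      have h2 : σ 1 ^ (n : ℤ) * σ 0 ^ (-(n : ℤ)) = 
          (σ 1 ^ (n : ℤ) * σ 0 ^ (-((n : ℤ) + 1))) * σ 0 := by
        rw [mul_assoc, ← zpow_add_one]; congr 2; ring
      rw [h1, h2]
      exact Relation.EqvGen.rel _ _ ⟨_⟩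
    | pred n ih =>
      refine Relation.EqvGen.trans _ _ _ (Relation.EqvGen.symm _ _ ?_) ih
      have h1 : σ 1 ^ (-(n : ℤ)) * σ 0 ^ (-(-(n : ℤ))) = 
          σ 1 * (σ 1 ^ (-(n : ℤ) - 1) * σ 0 ^ (-(-(n : ℤ)))) := by
        rw [← mul_assoc, ← zpow_one_add]; congr 2; ring
      have h2 : σ 1 ^ (-(n : ℤ) - 1) * σ 0 ^ (-(-(n : ℤ) - 1)) = 
          (σ 1 ^ (-(n : ℤ) - 1) * σ 0 ^ (-(-(n : ℤ)))) * σ 0 := by
        rw [mul_assoc, ← zpow_add_one]; congr 2; ring
      rw [h1, h2]
      exact Relation.EqvGen.rel _ _ ⟨_⟩

/-- if the normalised bracket is `1`, then the bracket is `± A^n` -/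
theorem mono_of_fPoly {P : Type} (D : Diagram P) (h : D.fPoly = 1) : IsMono D.bracket := by
  unfold Diagram.fPoly at h
  have hT : (T (3 * D.writhe) : ℤ[T;T⁻¹]) * T (-3 * D.writhe) = 1 := by
    rw [← T_add]; simp
  refine ⟨3 * D.writhe, ?_⟩
  split_ifs at h with he
  · left
    rw [one_mul] at h
    calc D.bracket = (T (3 * D.writhe) * T (-3 * D.writhe)) * D.bracket := by rw [hT, one_mul]
      _ = T (3 * D.writhe) * (T (-3 * D.writhe) * D.bracket) := by ring
      _ = _ := by rw [h, mul_one]
  · right
    calc D.bracket = (T (3 * D.writhe) * T (-3 * D.writhe)) * D.bracket := by rw [hT, one_mul]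
      _ = -(T (3 * D.writhe) * (-1 * T (-3 * D.writhe) * D.bracket)) := by ring
      _ = _ := by rw [h, mul_one]

theorem spiral_writhe (w : List (Letter 3)) : (dia (spiral (fun _ => true)) w).writhe = expB (braid w) := by
  have h1 := (draw_up (w.map (fun x => (x.1, (x.2 : ℕ)))) (spiral (fun _ => true)) (letters_lt w) 
    (fun _ => rfl)).2
  have h2 : (dia (spiral (fun _ => true)) w).writhe = 
      owr (draw (spiral (fun _ => true)) (w.map (fun x => (x.1, (x.2 : ℕ))))) := by
    unfold dia
    exact close_writhe _
  rw [h2, h1, expo_toB, toB_braid]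
  simp [owr, spiral, crossless]

theorem f_spiral (w : List (Letter 3)) :
    (dia (spiral (fun _ => true)) w).fPoly = 1 ↔ ∃ k : ℤ, braid w = σ 1 ^ k * σ 0 ^ (-k) := by
  constructor
  · intro h
    have h1 := mono_of_fPoly _ h
    have h2 := (main_spiral (fun _ => true) _ (letters_lt w)).1 h1
    rwa [toB_braid] at h2
  · rintro ⟨k, hk⟩
    have hb : (dia (spiral (fun _ => true)) w).bracket = 1 := by
      have h0 := br_spiral (fun _ => true) _ (letters_lt w)
      apply eq_of_ev
      intro N hN
      have hA := Ar_ne N hN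
      have h3 : phi (Ar_ne N hN) = ev N hN := rfl
      have h4 := congrArg (phi hA) h0
      have hs := Fs_spiral hA (d := -Ar N ^ 2 - (Ar N)⁻¹ ^ 2) rfl 0 k
      rw [zpow_zero, one_mul] at hs
      rw [phi_spiral, toB_braid, hk, hs, map_mul, map_add, map_one, phi_dlt, ← Ar_d N hN, h3] at h4
      have h5 : ((N : ℂ) + 1) ≠ 0 := by exact_mod_cast Nat.succ_ne_zero N
      have h6 : ev N hN (dia (spiral (fun _ => true)) w).bracket = 1 := by
        apply mul_left_cancel₀ h5
        rw [mul_one]
        simp only [neg_zero, mul_zero, zpow_zero, mul_one] at h4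
        rw [add_comm (N : ℂ) 1] at h4 ⊢
        exact h4.trans (by ring)
      rw [h6, map_one]
    have hwr : (dia (spiral (fun _ => true)) w).writhe = 0 := by
      rw [spiral_writhe, hk, expB_mul, expB_zpow, expB_zpow, expB_σ, expB_σ]; ring
    unfold Diagram.fPoly
    rw [hb, hwr]
    simp

end Pool.Agent.KS6_91.TB
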