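import Pool.Agent.KS6_91.TB.B3
import Pool.Agent.KS6_91.TB.Formula

/-!
# The two-dimensional representation of the braid group on three strands
-/

set_option autoImplicit false

namespace Pool.Agent.KS6_91.TB

section field

variable {K : Type*} [Field K] {A : K}

/-- the generator matrices as units -/
def gU (hA : A ≠ 0) (i : Fin 2) : (Matrix (Fin 2) (Fin 2) K)ˣ where
  val := LM A A⁻¹ (true, i)
  inv := LM A A⁻¹ (false, i)
  val_inv := by
    have h : A * A⁻¹ = 1 := mul_inv_cancel₀ hA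
    generalize A⁻¹ = b at h
    fin_cases i
    · simp only [LM, if_true, Bool.false_eq_true, if_false, Matrix.mul_fin_two, Matrix.one_fin_two]
      congr 1; funext i; fin_cases i <;> funext j <;> fin_cases j <;> simp
      · linear_combination ((A * b) ^ 2 + A * b + 1) * h
      · linear_combination (- b ^ 2) * h
      · linear_combination h
    · simp only [LM, if_true, Bool.false_eq_true, if_false, Matrix.mul_fin_two, Matrix.one_fin_two,
        one_ne_zero]
      congr 1; funext i; fin_cases i <;> funext j <;> fin_cases j <;> simp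
      · linear_combination h
      · linear_combination (- b ^ 2) * h
      · linear_combination ((A * b) ^ 2 + A * b + 1) * h
  inv_val := by
    have h : A * A⁻¹ = 1 := mul_inv_cancel₀ hA
    generalize A⁻¹ = b at h
    fin_cases i
    · simp only [LM, if_true, Bool.false_eq_true, if_false, Matrix.mul_fin_two, Matrix.one_fin_two]
      congr 1; funext i; fin_cases i <;> funext j <;> fin_cases j <;> simp
      · linear_combination ((A * b) ^ 2 + A * b + 1) * h
      · linear_combination (- A ^ 2) * h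
      · linear_combination h
    · simp only [LM, if_true, Bool.false_eq_true, if_false, Matrix.mul_fin_two, Matrix.one_fin_two,
        one_ne_zero]
      congr 1; funext i; fin_cases i <;> funext j <;> fin_cases j <;> simp
      · linear_combination h
      · linear_combination (- A ^ 2) * h
      · linear_combination ((A * b) ^ 2 + A * b + 1) * h

theorem gU_braid (hA : A ≠ 0) : gU hA 0 * gU hA 1 * gU hA 0 = gU hA 1 * gU hA 0 * gU hA 1 := by
  apply Units.ext
  show LM A A⁻¹ (true, 0) * LM A A⁻¹ (true, 1) * LM A A⁻¹ (true, 0) =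
    LM A A⁻¹ (true, 1) * LM A A⁻¹ (true, 0) * LM A A⁻¹ (true, 1)
  have h : A * A⁻¹ = 1 := mul_inv_cancel₀ hA
  generalize A⁻¹ = b at h
  simp only [LM, if_true, if_false, Matrix.mul_fin_two, one_ne_zero]
  congr 1; funext i; fin_cases i <;> funext j <;> fin_cases j <;> simp
  · linear_combination (b ^ 5 + A * b ^ 2) * h
  · linear_combination (- b ^ 3) * h
  · linear_combination (b ^ 3) * h
  · linear_combination (- (A * b ^ 2 + b ^ 5)) * h

/-- the representation -/
def RG (hA : A ≠ 0) : B3 →* (Matrix (Fin 2) (Fin 2) K)ˣ := lift (gU hA) (gU_braid hA)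

/-- the matrix of a braid -/
def rep (hA : A ≠ 0) (g : B3) : Matrix (Fin 2) (Fin 2) K := (RG hA g).val

theorem rep_mul (hA : A ≠ 0) (g h : B3) : rep hA (g * h) = rep hA g * rep hA h := by
  unfold rep; rw [map_mul]; rfl

theorem rep_one (hA : A ≠ 0) : rep hA 1 = 1 := by
  unfold rep; rw [map_one]; rfl

theorem rep_σ (hA : A ≠ 0) (i : Fin 2) : rep hA (σ i) = LM A A⁻¹ (true, i) := by
  unfold rep RG; rw [lift_σ]; rfl

theorem rep_σ' (hA : A ≠ 0) (i : Fin 2) : rep hA (σ i)⁻¹ = LM A A⁻¹ (false, i) := by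
  unfold rep RG; rw [map_inv, lift_σ]; rfl

theorem rep_0 (hA : A ≠ 0) : rep hA (σ 0) = !![-A⁻¹ ^ 3, A⁻¹; 0, A] := by
  rw [rep_σ]; simp [LM]

theorem rep_1 (hA : A ≠ 0) : rep hA (σ 1) = !![A, 0; A⁻¹, -A⁻¹ ^ 3] := by
  rw [rep_σ]; simp [LM]

theorem rep_0' (hA : A ≠ 0) : rep hA (σ 0)⁻¹ = !![-A ^ 3, A; 0, A⁻¹] := by
  rw [rep_σ']; simp [LM]

theorem rep_1' (hA : A ≠ 0) : rep hA (σ 1)⁻¹ = !![A⁻¹, 0; A, -A ^ 3] := by
  rw [rep_σ']; simp [LM]

theorem rep_Δ (hA : A ≠ 0) : rep hA Δ = !![0, -A⁻¹ ^ 3; -A⁻¹ ^ 3, 0] := by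
  unfold Δ
  rw [rep_mul, rep_mul, rep_0, rep_1, Matrix.mul_fin_two, Matrix.mul_fin_two]
  congr 1; funext i; fin_cases i <;> funext j <;> fin_cases j
  · simp; field_simp; simp
  · simp; field_simp; ring
  · simp; field_simp
  · simp; field_simp; simp

theorem rep_c (hA : A ≠ 0) : rep hA c = !![A⁻¹ ^ 6, 0; 0, A⁻¹ ^ 6] := by
  rw [c, rep_mul, rep_Δ, Matrix.mul_fin_two]
  congr 1; funext i; fin_cases i <;> funext j <;> fin_cases j <;> (simp; try ring)

theorem rep_cpow (hA : A ≠ 0) (m : ℤ) : rep hA (c ^ m) = (A ^ (-6 * m)) • (1 : Matrix (Fin 2) (Fin 2) K) := by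
  have h1 : rep hA c = (A ^ (-6 : ℤ)) • (1 : Matrix (Fin 2) (Fin 2) K) := by
    rw [rep_c, Matrix.one_fin_two, Matrix.smul_of]
    have : A ^ (-6 : ℤ) = A⁻¹ ^ 6 := by rw [zpow_neg, inv_pow]; norm_cast
    rw [this]
    simp
  have hu : ∀ n : ℕ, rep hA (c ^ n) = (A ^ (-6 * (n : ℤ))) • (1 : Matrix (Fin 2) (Fin 2) K) := by
    intro n
    induction n with
    | zero => simp [rep_one]
    | succ n ih =>
      rw [pow_succ, rep_mul, ih, h1, smul_mul_smul_comm, one_mul, ← zpow_add₀ hA]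
      congr 2; push_cast; ring
  have hinv : ∀ g : B3, rep hA g * rep hA g⁻¹ = 1 := by
    intro g; rw [← rep_mul, mul_inv_cancel, rep_one]
  rcases m with n | n
  · exact hu n
  · have h2 := hinv (c ^ (n+1))
    rw [hu (n+1)] at h2
    have h3 : (c : B3) ^ Int.negSucc n = (c ^ (n+1))⁻¹ := zpow_negSucc _ _
    rw [h3]
    have h4 : rep hA (c ^ (n+1))⁻¹ = A ^ (6 * ((n+1 : ℕ) : ℤ)) •
        ((A ^ (-6 * ((n+1 : ℕ) : ℤ)) • (1 : Matrix (Fin 2) (Fin 2) K)) * rep hA (c ^ (n+1))⁻¹) := by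
      rw [smul_mul_assoc, one_mul, smul_smul, ← zpow_add₀ hA]
      have : 6 * ((n+1 : ℕ) : ℤ) + -6 * ((n+1 : ℕ) : ℤ) = 0 := by ring
      rw [this, zpow_zero, one_smul]
    rw [h4, h2]
    congr 2

/-- the exponent sum of a braid -/
def expB (g : B3) : ℤ := Multiplicative.toAdd (lift (fun _ => Multiplicative.ofAdd (1 : ℤ)) rfl g)

theorem expB_mul (g h : B3) : expB (g * h) = expB g + expB h := by
  unfold expB; rw [map_mul]; rfl

theorem expB_one : expB 1 = 0 := by
  unfold expB; rw [map_one]; rfl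

theorem expB_σ (i : Fin 2) : expB (σ i) = 1 := by
  unfold expB; rw [lift_σ]; rfl

theorem expB_inv (g : B3) : expB g⁻¹ = - expB g := by
  unfold expB; rw [map_inv]; rfl

theorem expB_c : expB c = 6 := by
  simp only [c, Δ, expB_mul, expB_σ]; norm_num

theorem expB_zpow (g : B3) (m : ℤ) : expB (g ^ m) = m * expB g := by
  unfold expB; rw [map_zpow, toAdd_zpow]; rfl

/-! ### words -/

/-- the braid of a letter -/
def lB (x : Bool × ℕ) : B3 := if x.2 = 0 then (if x.1 then σ 0 else (σ 0)⁻¹)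
  else (if x.1 then σ 1 else (σ 1)⁻¹)

/-- the braid of a word -/
def toB (w : List (Bool × ℕ)) : B3 := (w.map lB).prod

theorem toB_cons (x : Bool × ℕ) (w : List (Bool × ℕ)) : toB (x :: w) = lB x * toB w := by simp [toB]

theorem LM_lB (hA : A ≠ 0) (x : Bool × ℕ) : LM A A⁻¹ x = rep hA (lB x) := by
  unfold lB LM
  split_ifs
  · rw [rep_0]
  · rw [rep_0']
  · rw [rep_1]
  · rw [rep_1']

theorem RK_toB (hA : A ≠ 0) (w : List (Bool × ℕ)) : RK A A⁻¹ w = rep hA (toB w) := by
  induction w with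
  | nil => simp [RK, toB, rep_one]
  | cons x w ih => rw [RK_cons, toB_cons, rep_mul, ih, LM_lB hA]

theorem expo_toB (w : List (Bool × ℕ)) : Pool.Agent.W639.RB.expo w = expB (toB w) := by
  induction w with
  | nil => simp [Pool.Agent.W639.RB.expo, toB, expB_one]
  | cons x w ih =>
    have hex : Pool.Agent.W639.RB.expo (x :: w) = (if x.1 then (1 : ℤ) else -1) + 
      Pool.Agent.W639.RB.expo w := by simp [Pool.Agent.W639.RB.expo]
    rw [toB_cons, expB_mul, hex, ih]
    congr 1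
    unfold lB
    split_ifs <;> simp [expB_σ, expB_inv]

/-! ### the four functionals -/

/-- the functional of the spiral -/
def Fs (hA : A ≠ 0) (d : K) (g : B3) : K :=
  d * A ^ expB g + rep hA g 0 0 + rep hA g 0 1 + (d + 1) * rep hA g 1 0

/-- the functional of the two hooks -/
def Fh (hA : A ≠ 0) (d : K) (g : B3) : K :=
  (d + 2) * (d - 1) * A ^ expB g + rep hA g 0 0 + rep hA g 0 1 + rep hA g 1 0 + rep hA g 1 1

/-- the functional of the loop -/
def Fl (hA : A ≠ 0) (d : K) (g : B3) : K :=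
  (d ^ 2 - 2) * A ^ expB g + (d + 1) * rep hA g 0 0 + rep hA g 1 0 + rep hA g 1 1

/-- the functional of the cap -/
def Fc (hA : A ≠ 0) (d : K) (g : B3) : K :=
  rep hA g 0 0 + rep hA g 0 1 + d * (rep hA g 1 0 + rep hA g 1 1)

/-- the functional of the turn -/
def Ft (hA : A ≠ 0) (d : K) (g : B3) : K := (d + 1) * (rep hA g 0 0 + rep hA g 1 0)

theorem Fs_slide (hA : A ≠ 0) {d : K} (hd : d = -A ^ 2 - A⁻¹ ^ 2) (g : B3) :
    Fs hA d (σ 1 * g) = Fs hA d (g * σ 0) := by
  unfold Fs
  rw [rep_mul, rep_mul, rep_0, rep_1, Matrix.eta_fin_two (rep hA g), Matrix.mul_fin_two,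
    Matrix.mul_fin_two, expB_mul, expB_mul, expB_σ, expB_σ, add_comm (1 : ℤ)]
  simp
  subst hd
  field_simp
  ring

theorem slide_pow {X : Type*} (f : B3 → X) (a b : B3) (h : ∀ g, f (a * g) = f (g * b)) (k : ℤ) :
    ∀ g : B3, f (a ^ k * g) = f (g * b ^ k) := by
  have hneg : ∀ g, f (a⁻¹ * g) = f (g * b⁻¹) := by
    intro g
    have := h (a⁻¹ * g * b⁻¹)
    rw [inv_mul_cancel_right, ← mul_assoc, ← mul_assoc, mul_inv_cancel, one_mul] at this
    exact this.symm
  induction k with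
  | zero => intro g; simp
  | succ n ih =>
    intro g
    rw [zpow_add, zpow_one, mul_assoc, ih, mul_assoc, h, mul_assoc, ← zpow_add_one]
  | pred n ih =>
    intro g
    rw [sub_eq_add_neg, zpow_add, zpow_neg_one, mul_assoc, ih, mul_assoc, hneg, mul_assoc,
      ← zpow_neg_one b, ← zpow_add]

end field

end Pool.Agent.KS6_91.TB
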