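import Pool.Agent.KS6_91.TB.Rep

/-!
# The braids with a bracket of norm one at an eighth root of unity
-/

set_option autoImplicit false

namespace Pool.Agent.KS6_91.TB

open Complex (I)

theorem exists_z : ∃ z : ℂ, z ^ 2 = I := IsAlgClosed.exists_pow_nat_eq _ (by norm_num)

theorem z_ne {z : ℂ} (hz : z ^ 2 = I) : z ≠ 0 := by
  rintro rfl
  exact Complex.I_ne_zero (by rw [← hz]; norm_num)

theorem z_norm {z : ℂ} (hz : z ^ 2 = I) : ‖z‖ = 1 := by
  have h := congrArg norm hz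
  rw [norm_pow, Complex.norm_I] at h
  have := norm_nonneg z
  nlinarith

theorem z_inv {z : ℂ} (hz : z ^ 2 = I) : z⁻¹ = -I * z := by
  have h0 := z_ne hz
  apply mul_left_cancel₀ h0
  rw [mul_inv_cancel₀ h0]
  linear_combination I * hz + Complex.I_mul_I

theorem z_inv3 {z : ℂ} (hz : z ^ 2 = I) : -z⁻¹ ^ 3 = z := by
  rw [z_inv hz]
  have h1 := Complex.I_mul_I
  linear_combination (I ^ 3 * z) * hz + (z * (I * I) - z) * h1

/-- conjugation by a diagonal matrix -/
noncomputable def CC (M : Matrix (Fin 2) (Fin 2) ℤ) : Matrix (Fin 2) (Fin 2) ℂ :=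
  !![(M 0 0 : ℂ), -I * (M 0 1 : ℂ); I * (M 1 0 : ℂ), (M 1 1 : ℂ)]

theorem CC_mul (M N : Matrix (Fin 2) (Fin 2) ℤ) : CC (M * N) = CC M * CC N := by
  have hII := Complex.I_mul_I
  unfold CC
  rw [Matrix.mul_fin_two, Matrix.eta_fin_two M, Matrix.eta_fin_two N, Matrix.mul_fin_two]
  congr 1; funext i; fin_cases i <;> funext j <;> fin_cases j <;> simp
  · linear_combination (M 0 1 * N 1 0 : ℂ) * hII
  · ring
  · ring
  · linear_combination (M 1 0 * N 0 1 : ℂ) * hII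

/-- the representation at an eighth root of unity -/
theorem rep_z {z : ℂ} (hz : z ^ 2 = I) (g : B3) :
    rep (z_ne hz) g = z ^ expB g • CC (mat g) := by
  have h0 := z_ne hz
  have hi := z_inv hz
  have h3 := z_inv3 hz
  have hII := Complex.I_mul_I
  have e1 : z = I * z⁻¹ := by rw [hi]; linear_combination (z) * hII
  have e2 : -z ^ 3 = z⁻¹ := by
    rw [hi]; linear_combination (-z) * hz
  have hm : ∀ x y : B3, rep h0 x = z ^ expB x • CC (mat x) → rep h0 y = z ^ expB y • CC (mat y) → 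
      rep h0 (x * y) = z ^ expB (x * y) • CC (mat (x * y)) := by
    intro x y hx hy
    rw [rep_mul, hx, hy, mat_mul, CC_mul, expB_mul, zpow_add₀ h0, smul_mul_smul_comm]
  have h : g ∈ Subgroup.closure (Set.range σ) := closure_σ ▸ Subgroup.mem_top g
  induction h using Subgroup.closure_induction_left with
  | one => 
    rw [rep_one, mat_one, expB_one, Matrix.one_fin_two]
    simp [CC]
  | mul_left x hx y _ ih =>
    obtain ⟨i, rfl⟩ := hx
    refine hm _ _ ?_ ih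
    fin_cases i
    · show rep h0 (σ 0) = z ^ expB (σ 0) • CC (mat (σ 0))
      rw [rep_0, mat_0, expB_σ, h3, hi]
      simp [CC, Matrix.smul_of]
      ring
    · show rep h0 (σ 1) = z ^ expB (σ 1) • CC (mat (σ 1))
      rw [rep_1, mat_1, expB_σ, h3, hi]
      simp [CC, Matrix.smul_of]
      ring
  | inv_mul_cancel x hx y _ ih =>
    obtain ⟨i, rfl⟩ := hx
    refine hm _ _ ?_ ih
    fin_cases i
    · show rep h0 (σ 0)⁻¹ = z ^ expB (σ 0)⁻¹ • CC (mat (σ 0)⁻¹)
      rw [rep_0', mat_0', expB_inv, expB_σ, e2, zpow_neg_one]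
      ext i j
      fin_cases i <;> fin_cases j <;> simp [CC]
      linear_combination e1
    · show rep h0 (σ 1)⁻¹ = z ^ expB (σ 1)⁻¹ • CC (mat (σ 1)⁻¹)
      rw [rep_1', mat_1', expB_inv, expB_σ, e2, zpow_neg_one]
      ext i j
      fin_cases i <;> fin_cases j <;> simp [CC]
      linear_combination e1

theorem norm_sq_eq (a b : ℤ) : ‖(a : ℂ) + b * I‖ = 1 ↔ a ^ 2 + b ^ 2 = 1 := by
  rw [← sq_eq_sq₀ (norm_nonneg _) zero_le_one, ← Complex.normSq_eq_norm_sq]
  have : (a : ℂ) + b * I = ⟨(a : ℝ), (b : ℝ)⟩ := by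
    apply Complex.ext <;> simp
  rw [this, Complex.normSq_mk]
  constructor
  · intro h
    have : (a : ℝ) ^ 2 + (b : ℝ) ^ 2 = 1 := by linarith
    exact_mod_cast this
  · intro h
    have : (a : ℝ) ^ 2 + (b : ℝ) ^ 2 = 1 := by exact_mod_cast h
    linarith

theorem norm_F {z : ℂ} (hz : z ^ 2 = I) (n : ℤ) (x : ℂ) (a b : ℤ) (h : x = z ^ n * ((a : ℂ) + b * I)) :
    ‖x‖ = 1 ↔ a ^ 2 + b ^ 2 = 1 := by
  rw [h, norm_mul, norm_zpow, z_norm hz, one_zpow, one_mul, norm_sq_eq]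

theorem Fs_z {z : ℂ} (hz : z ^ 2 = I) (g : B3) : ‖Fs (z_ne hz) 0 g‖ = 1 ↔
    mat g 0 0 ^ 2 + (mat g 1 0 - mat g 0 1) ^ 2 = 1 := by
  apply norm_F hz (expB g)
  unfold Fs
  rw [rep_z hz]
  simp [CC]
  ring

theorem Fh_z {z : ℂ} (hz : z ^ 2 = I) (g : B3) : ‖Fh (z_ne hz) 0 g‖ = 1 ↔
    (mat g 0 0 + mat g 1 1 - 2) ^ 2 + (mat g 1 0 - mat g 0 1) ^ 2 = 1 := by
  apply norm_F hz (expB g)
  unfold Fh
  rw [rep_z hz]
  simp [CC]
  ring

theorem Fl_z {z : ℂ} (hz : z ^ 2 = I) (g : B3) : ‖Fl (z_ne hz) 0 g‖ = 1 ↔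
    (mat g 0 0 + mat g 1 1 - 2) ^ 2 + (mat g 1 0) ^ 2 = 1 := by
  apply norm_F hz (expB g)
  unfold Fl
  rw [rep_z hz]
  simp [CC]
  ring

theorem Fc_z {z : ℂ} (hz : z ^ 2 = I) (g : B3) : ‖Fc (z_ne hz) 0 g‖ = 1 ↔
    (mat g 0 0) ^ 2 + (-mat g 0 1) ^ 2 = 1 := by
  apply norm_F hz (expB g)
  unfold Fc
  rw [rep_z hz]
  simp [CC]
  ring

theorem Ft_z {z : ℂ} (hz : z ^ 2 = I) (g : B3) : ‖Ft (z_ne hz) 0 g‖ = 1 ↔
    (mat g 0 0) ^ 2 + (mat g 1 0) ^ 2 = 1 := by
  apply norm_F hz (expB g)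
  unfold Ft
  rw [rep_z hz]
  simp [CC]
  ring

/-! ### the braids -/

theorem mat_0_zpow (k : ℤ) : mat (σ 0 ^ k) = !![1, k; 0, 1] := by
  induction k with
  | zero => rw [zpow_zero, mat_one, Matrix.one_fin_two]
  | succ n ih =>
    rw [zpow_add_one, mat_mul, ih, mat_0, Matrix.mul_fin_two]
    simp; ring
  | pred n ih =>
    rw [zpow_sub_one, mat_mul, ih, mat_0', Matrix.mul_fin_two]
    simp; ring

theorem mat_1_zpow (k : ℤ) : mat (σ 1 ^ k) = !![1, 0; -k, 1] := by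
  induction k with
  | zero => rw [zpow_zero, mat_one, Matrix.one_fin_two]; simp
  | succ n ih =>
    rw [zpow_add_one, mat_mul, ih, mat_1, Matrix.mul_fin_two]
    simp; ring
  | pred n ih =>
    rw [zpow_sub_one, mat_mul, ih, mat_1', Matrix.mul_fin_two]
    simp; ring

/-- two matrices which agree up to sign -/
theorem mat_cases {g g₀ : B3} (e : ℤ) (he : e = 1 ∨ e = -1) (h00 : mat g 0 0 = e * mat g₀ 0 0)
    (h01 : mat g 0 1 = e * mat g₀ 0 1) (h10 : mat g 1 0 = e * mat g₀ 1 0)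
    (h11 : mat g 1 1 = e * mat g₀ 1 1) : ∃ m : ℤ, g = c ^ m * g₀ := by
  apply eq_of_mat
  rcases he with rfl | rfl
  · left
    ext i j
    fin_cases i <;> fin_cases j <;> simp_all
  · right
    ext i j
    fin_cases i <;> fin_cases j <;> simp_all

theorem sq_add_sq_one {a b : ℤ} (h : a ^ 2 + b ^ 2 = 1) : 
    ((a = 1 ∨ a = -1) ∧ b = 0) ∨ (a = 0 ∧ (b = 1 ∨ b = -1)) := by
  have ha : -1 ≤ a ∧ a ≤ 1 := by constructor <;> nlinarith [sq_nonneg b]
  have hb : -1 ≤ b ∧ b ≤ 1 := by constructor <;> nlinarith [sq_nonneg a]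
  obtain ⟨ha1, ha2⟩ := ha
  obtain ⟨hb1, hb2⟩ := hb
  interval_cases a <;> interval_cases b <;> simp_all

theorem spiral_mat (g : B3) (h : mat g 0 0 ^ 2 + (mat g 1 0 - mat g 0 1) ^ 2 = 1) :
    ∃ m k : ℤ, g = c ^ m * (σ 1 ^ k * σ 0 ^ (-k)) := by
  have hd := det_eq g
  rcases sq_add_sq_one h with ⟨ha, hb⟩ | ⟨ha, hb⟩
  · have h10 : mat g 1 0 = mat g 0 1 := by linarith
    rw [h10] at hd
    have key : ∀ e : ℤ, (e = 1 ∨ e = -1) → mat g 0 0 = e → 
        ∃ m k : ℤ, g = c ^ m * (σ 1 ^ k * σ 0 ^ (-k)) := by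
      intro e he h00
      have he2 : e * e = 1 := by rcases he with rfl | rfl <;> norm_num
      have h11 : mat g 1 1 = e * (1 + mat g 0 1 ^ 2) := by
        have h5 : e * mat g 1 1 = 1 + mat g 0 1 ^ 2 := by rw [h00] at hd; linarith
        calc mat g 1 1 = (e * e) * mat g 1 1 := by rw [he2, one_mul]
          _ = e * (e * mat g 1 1) := by ring
          _ = _ := by rw [h5]
      obtain ⟨m, hm⟩ := mat_cases (g := g) 
        (g₀ := σ 1 ^ (-(e * mat g 0 1)) * σ 0 ^ (-(-(e * mat g 0 1)))) e he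
        (by rw [mat_mul, mat_0_zpow, mat_1_zpow, Matrix.mul_fin_two]; simp [h00])
        (by rw [mat_mul, mat_0_zpow, mat_1_zpow, Matrix.mul_fin_two]; simp; 
            linear_combination (-mat g 0 1) * he2)
        (by rw [mat_mul, mat_0_zpow, mat_1_zpow, Matrix.mul_fin_two]; simp; 
            linear_combination h10 + (-mat g 0 1) * he2)
        (by rw [mat_mul, mat_0_zpow, mat_1_zpow, Matrix.mul_fin_two]; simp
            rw [h11]
            linear_combination (-(e * mat g 0 1 ^ 2)) * he2)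
      exact ⟨m, _, hm⟩
    rcases ha with ha | ha
    · exact key 1 (Or.inl rfl) ha
    · exact key (-1) (Or.inr rfl) ha
  · exfalso
    rw [ha] at hd
    rcases hb with hb | hb
    · have : mat g 1 0 = 1 + mat g 0 1 := by linarith
      rw [this] at hd
      nlinarith [sq_nonneg (2 * mat g 0 1 + 1)]
    · have : mat g 1 0 = mat g 0 1 - 1 := by linarith
      rw [this] at hd
      nlinarith [sq_nonneg (2 * mat g 0 1 - 1)]

/-- the eight braids which give the trivial knotoid with two hooks -/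
inductive Eight : B3 → Prop
  | a : Eight (σ 0)
  | a' : Eight (σ 0)⁻¹
  | b : Eight (σ 1)
  | b' : Eight (σ 1)⁻¹
  | ab' : Eight (σ 0 * (σ 1)⁻¹)
  | b'a : Eight ((σ 1)⁻¹ * σ 0)
  | a'b : Eight ((σ 0)⁻¹ * σ 1)
  | ba' : Eight (σ 1 * (σ 0)⁻¹)

theorem eq_of_entries {g g₀ : B3} {p q r s : ℤ} (h0 : mat g₀ = !![p, q; r, s]) (h00 : mat g 0 0 = p)
    (h01 : mat g 0 1 = q) (h10 : mat g 1 0 = r) (h11 : mat g 1 1 = s) : ∃ m : ℤ, g = c ^ m * g₀ := by
  apply mat_cases 1 (Or.inl rfl) <;> rw [h0] <;> simp_all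

theorem hooks_mat (g : B3) (h : (mat g 0 0 + mat g 1 1 - 2) ^ 2 + (mat g 1 0 - mat g 0 1) ^ 2 = 1) :
    ∃ (m : ℤ) (g₀ : B3), Eight g₀ ∧ g = c ^ m * g₀ := by
  have hd := det_eq g
  rcases sq_add_sq_one h with ⟨ha, hb⟩ | ⟨ha, hb⟩
  · have h10 : mat g 1 0 = mat g 0 1 := by linarith
    rw [h10] at hd
    rcases ha with ha | ha
    · have h11 : mat g 1 1 = 3 - mat g 0 0 := by linarith
      rw [h11] at hd
      have hq : (2 * mat g 0 0 - 3) ^ 2 + 4 * mat g 0 1 ^ 2 = 5 := by linarith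
      have h1 : -1 ≤ mat g 0 1 ∧ mat g 0 1 ≤ 1 := by
        constructor <;> nlinarith [sq_nonneg (2 * mat g 0 0 - 3)]
      have h2 : 1 ≤ mat g 0 0 ∧ mat g 0 0 ≤ 2 := by
        constructor <;> nlinarith [sq_nonneg (mat g 0 1), sq_nonneg (2 * mat g 0 0 - 3)]
      have h3 : mat g 0 0 = 1 ∨ mat g 0 0 = 2 := by omega
      have h4 : mat g 0 1 = 1 ∨ mat g 0 1 = -1 := by
        have : mat g 0 1 ≠ 0 := by
          intro h0
          rw [h0] at hq
          rcases h3 with h3 | h3 <;> rw [h3] at hq <;> norm_num at hq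
        omega
      rcases h3 with h3 | h3 <;> rcases h4 with h4 | h4
      · obtain ⟨m, hm⟩ := eq_of_entries (g := g) (g₀ := (σ 1)⁻¹ * σ 0) (p := 1) (q := 1) (r := 1) (s := 2) 
          (by rw [mat_mul, mat_1', mat_0]; decide) (by omega) (by omega) (by omega) (by omega)
        exact ⟨m, _, Eight.b'a, hm⟩
      · obtain ⟨m, hm⟩ := eq_of_entries (g := g) (g₀ := (σ 1) * (σ 0)⁻¹) (p := 1) (q := -1) (r := -1) (s := 2) 
          (by rw [mat_mul, mat_1, mat_0']; decide) (by omega) (by omega) (by omega) (by omega)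
        exact ⟨m, _, Eight.ba', hm⟩
      · obtain ⟨m, hm⟩ := eq_of_entries (g := g) (g₀ := (σ 0) * (σ 1)⁻¹) (p := 2) (q := 1) (r := 1) (s := 1) 
          (by rw [mat_mul, mat_1', mat_0]; decide) (by omega) (by omega) (by omega) (by omega)
        exact ⟨m, _, Eight.ab', hm⟩
      · obtain ⟨m, hm⟩ := eq_of_entries (g := g) (g₀ := (σ 0)⁻¹ * (σ 1)) (p := 2) (q := -1) (r := -1) (s := 1) 
          (by rw [mat_mul, mat_1, mat_0']; decide) (by omega) (by omega) (by omega) (by omega)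
        exact ⟨m, _, Eight.a'b, hm⟩
    · exfalso
      have h11 : mat g 1 1 = 1 - mat g 0 0 := by linarith
      rw [h11] at hd
      nlinarith [sq_nonneg (2 * mat g 0 0 - 1), sq_nonneg (mat g 0 1)]
  · have h11 : mat g 1 1 = 2 - mat g 0 0 := by linarith
    rw [h11] at hd
    have key : ∀ s : ℤ, (s = 1 ∨ s = -1) → mat g 1 0 = mat g 0 1 + s → 
        mat g 0 0 = 1 ∧ (mat g 0 1 = 0 ∨ mat g 0 1 = -s) := by
      intro s hs h10
      rw [h10] at hd
      have h5 : (mat g 0 0 - 1) ^ 2 + mat g 0 1 * (mat g 0 1 + s) = 0 := by linarith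
      have h6 : 0 ≤ mat g 0 1 * (mat g 0 1 + s) := by
        rcases hs with rfl | rfl
        · rcases le_or_gt 0 (mat g 0 1) with h7 | h7
          · nlinarith
          · nlinarith
        · rcases le_or_gt (mat g 0 1) 0 with h7 | h7
          · nlinarith
          · nlinarith
      have h7 : (mat g 0 0 - 1) ^ 2 = 0 := by nlinarith [sq_nonneg (mat g 0 0 - 1)]
      have h8 : mat g 0 1 * (mat g 0 1 + s) = 0 := by linarith
      refine ⟨by have := pow_eq_zero_iff (two_ne_zero) |>.1 h7; linarith, ?_⟩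
      rcases mul_eq_zero.1 h8 with h9 | h9
      · left; exact h9
      · right; linarith
    rcases hb with hb | hb
    · obtain ⟨h00, h01⟩ := key 1 (Or.inl rfl) (by linarith)
      rcases h01 with h01 | h01
      · obtain ⟨m, hm⟩ := eq_of_entries (g := g) (g₀ := (σ 1)⁻¹) (p := 1) (q := 0) (r := 1) (s := 1) 
          (by rw [mat_1']) (by omega) (by omega) (by omega) (by omega)
        exact ⟨m, _, Eight.b', hm⟩
      · obtain ⟨m, hm⟩ := eq_of_entries (g := g) (g₀ := (σ 0)⁻¹) (p := 1) (q := -1) (r := 0) (s := 1) 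
          (by rw [mat_0']) (by omega) (by omega) (by omega) (by omega)
        exact ⟨m, _, Eight.a', hm⟩
    · obtain ⟨h00, h01⟩ := key (-1) (Or.inr rfl) (by linarith)
      rcases h01 with h01 | h01
      · obtain ⟨m, hm⟩ := eq_of_entries (g := g) (g₀ := (σ 1)) (p := 1) (q := 0) (r := -1) (s := 1) 
          (by rw [mat_1]) (by omega) (by omega) (by omega) (by omega)
        exact ⟨m, _, Eight.b, hm⟩
      · obtain ⟨m, hm⟩ := eq_of_entries (g := g) (g₀ := (σ 0)) (p := 1) (q := 1) (r := 0) (s := 1) 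
          (by rw [mat_0]) (by omega) (by omega) (by omega) (by omega)
        exact ⟨m, _, Eight.a, hm⟩

theorem loop_mat (g : B3) (h : (mat g 0 0 + mat g 1 1 - 2) ^ 2 + (mat g 1 0) ^ 2 = 1) :
    ∃ m k s : ℤ, (s = 1 ∨ s = -1) ∧ g = c ^ m * (σ 0 ^ k * (σ 1 ^ s * σ 0 ^ (-k))) := by
  have hd := det_eq g
  rcases sq_add_sq_one h with ⟨ha, hb⟩ | ⟨ha, hb⟩
  · exfalso
    rw [hb, mul_zero, sub_zero] at hd
    rcases Int.eq_one_or_neg_one_of_mul_eq_one hd with h1 | h1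
    · have h2 : mat g 1 1 = 1 := by rw [h1] at hd; linarith
      omega
    · have h2 : mat g 1 1 = -1 := by rw [h1] at hd; linarith
      omega
  · have h11 : mat g 1 1 = 2 - mat g 0 0 := by linarith
    rw [h11] at hd
    have hc2 : mat g 1 0 * mat g 1 0 = 1 := by rcases hb with hb | hb <;> rw [hb] <;> norm_num
    have h01 : mat g 0 1 = -mat g 1 0 * (mat g 0 0 - 1) ^ 2 := by
      calc mat g 0 1 = mat g 0 1 * (mat g 1 0 * mat g 1 0) := by rw [hc2, mul_one]
        _ = (mat g 0 1 * mat g 1 0) * mat g 1 0 := by ring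
        _ = (mat g 0 0 * (2 - mat g 0 0) - 1) * mat g 1 0 := by rw [show mat g 0 1 * mat g 1 0 = 
            mat g 0 0 * (2 - mat g 0 0) - 1 from by linarith]
        _ = _ := by ring
    obtain ⟨m, hm⟩ := mat_cases (g := g) 
      (g₀ := σ 0 ^ ((mat g 0 0 - 1) * mat g 1 0) * (σ 1 ^ (-mat g 1 0) * σ 0 ^ (-((mat g 0 0 - 1) * mat g 1 0)))) 
      1 (Or.inl rfl)
      (by rw [mat_mul, mat_mul, mat_0_zpow, mat_1_zpow, mat_0_zpow, Matrix.mul_fin_two, Matrix.mul_fin_two]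
          simp; linear_combination (-(mat g 0 0 - 1)) * hc2)
      (by rw [mat_mul, mat_mul, mat_0_zpow, mat_1_zpow, mat_0_zpow, Matrix.mul_fin_two, Matrix.mul_fin_two]
          simp; linear_combination h01 + ((mat g 0 0 - 1)^2 * mat g 1 0) * hc2)
      (by rw [mat_mul, mat_mul, mat_0_zpow, mat_1_zpow, mat_0_zpow, Matrix.mul_fin_two, Matrix.mul_fin_two]
          simp)
      (by rw [mat_mul, mat_mul, mat_0_zpow, mat_1_zpow, mat_0_zpow, Matrix.mul_fin_two, Matrix.mul_fin_two]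
          simp; linear_combination h11 + ((mat g 0 0 - 1)) * hc2)
    exact ⟨m, _, -mat g 1 0, by rcases hb with hb | hb <;> rw [hb] <;> norm_num, hm⟩

theorem cap_mat (g : B3) (h : (mat g 0 0) ^ 2 + (-mat g 0 1) ^ 2 = 1) :
    ∃ m k : ℤ, g = c ^ m * σ 1 ^ k ∨ g = c ^ m * (σ 1 ^ k * Δ) := by
  have hd := det_eq g
  rcases sq_add_sq_one h with ⟨ha, hb⟩ | ⟨ha, hb⟩
  · have hb' : mat g 0 1 = 0 := by linarith
    have key : ∀ e : ℤ, (e = 1 ∨ e = -1) → mat g 0 0 = e → 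
        ∃ m k : ℤ, g = c ^ m * σ 1 ^ k ∨ g = c ^ m * (σ 1 ^ k * Δ) := by
      intro e he h00
      have he2 : e * e = 1 := by rcases he with rfl | rfl <;> norm_num
      rw [h00, hb'] at hd
      obtain ⟨m, hm⟩ := mat_cases (g := g) (g₀ := σ 1 ^ (-(e * mat g 1 0))) e he
        (by rw [mat_1_zpow]; simp [h00])
        (by rw [mat_1_zpow]; simp [hb'])
        (by rw [mat_1_zpow]; simp; linear_combination (-mat g 1 0) * he2)
        (by rw [mat_1_zpow]; simp; linear_combination e * hd + (-mat g 1 1) * he2)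
      exact ⟨m, _, Or.inl hm⟩
    rcases ha with ha | ha
    · exact key 1 (Or.inl rfl) ha
    · exact key (-1) (Or.inr rfl) ha
  · have key : ∀ e : ℤ, (e = 1 ∨ e = -1) → mat g 0 1 = e → 
        ∃ m k : ℤ, g = c ^ m * σ 1 ^ k ∨ g = c ^ m * (σ 1 ^ k * Δ) := by
      intro e he h01
      have he2 : e * e = 1 := by rcases he with rfl | rfl <;> norm_num
      rw [ha, h01] at hd
      obtain ⟨m, hm⟩ := mat_cases (g := g) (g₀ := σ 1 ^ (-(e * mat g 1 1)) * Δ) e he
        (by rw [mat_mul, mat_1_zpow, mat_Δ, Matrix.mul_fin_two]; simp [ha])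
        (by rw [mat_mul, mat_1_zpow, mat_Δ, Matrix.mul_fin_two]; simp [h01])
        (by rw [mat_mul, mat_1_zpow, mat_Δ, Matrix.mul_fin_two]; simp; linear_combination (-e) * hd + (-mat g 1 0) * he2)
        (by rw [mat_mul, mat_1_zpow, mat_Δ, Matrix.mul_fin_two]; simp; linear_combination (-mat g 1 1) * he2)
      exact ⟨m, _, Or.inr hm⟩
    rcases hb with hb | hb
    · exact key (-1) (Or.inr rfl) (by linarith)
    · exact key 1 (Or.inl rfl) (by linarith)

theorem turn_mat (g : B3) (h : (mat g 0 0) ^ 2 + (mat g 1 0) ^ 2 = 1) :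
    ∃ m k : ℤ, g = c ^ m * σ 0 ^ k ∨ g = c ^ m * (Δ * σ 0 ^ k) := by
  have hd := det_eq g
  rcases sq_add_sq_one h with ⟨ha, hb⟩ | ⟨ha, hb⟩
  · have key : ∀ e : ℤ, (e = 1 ∨ e = -1) → mat g 0 0 = e → 
        ∃ m k : ℤ, g = c ^ m * σ 0 ^ k ∨ g = c ^ m * (Δ * σ 0 ^ k) := by
      intro e he h00
      have he2 : e * e = 1 := by rcases he with rfl | rfl <;> norm_num
      rw [h00, hb] at hd
      obtain ⟨m, hm⟩ := mat_cases (g := g) (g₀ := σ 0 ^ (e * mat g 0 1)) e he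
        (by rw [mat_0_zpow]; simp [h00])
        (by rw [mat_0_zpow]; simp; linear_combination (-mat g 0 1) * he2)
        (by rw [mat_0_zpow]; simp [hb])
        (by rw [mat_0_zpow]; simp; linear_combination e * hd + (-mat g 1 1) * he2)
      exact ⟨m, _, Or.inl hm⟩
    rcases ha with ha | ha
    · exact key 1 (Or.inl rfl) ha
    · exact key (-1) (Or.inr rfl) ha
  · have key : ∀ e : ℤ, (e = 1 ∨ e = -1) → mat g 1 0 = e → 
        ∃ m k : ℤ, g = c ^ m * σ 0 ^ k ∨ g = c ^ m * (Δ * σ 0 ^ k) := by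
      intro e he h10
      have he2 : e * e = 1 := by rcases he with rfl | rfl <;> norm_num
      rw [ha, h10] at hd
      obtain ⟨m, hm⟩ := mat_cases (g := g) (g₀ := Δ * σ 0 ^ (e * mat g 1 1)) (-e) (by omega)
        (by rw [mat_mul, mat_0_zpow, mat_Δ, Matrix.mul_fin_two]; simp [ha])
        (by rw [mat_mul, mat_0_zpow, mat_Δ, Matrix.mul_fin_two]; simp
            linear_combination (-e) * hd + (-mat g 0 1) * he2)
        (by rw [mat_mul, mat_0_zpow, mat_Δ, Matrix.mul_fin_two]; simp [h10])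
        (by rw [mat_mul, mat_0_zpow, mat_Δ, Matrix.mul_fin_two]; simp; linear_combination (-mat g 1 1) * he2)
      exact ⟨m, _, Or.inr hm⟩
    rcases hb with hb | hb
    · exact key 1 (Or.inl rfl) hb
    · exact key (-1) (Or.inr rfl) hb

end Pool.Agent.KS6_91.TB
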